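import Pool.Agent.Helper70.BRT.Defs

/-! # Algebra of models of `P⁻` -/

namespace Pool.Agent.Helper70.BRT

universe u

variable {M : Type u} [PModel M]

instance : IsOrderedAddMonoid M where
  add_le_add_left a b h c := by
    rcases eq_or_lt_of_le h with rfl | h
    · exact le_rfl
    · exact (PModel.add_lt_add_right'' a b c h).le

instance : IsOrderedCancelAddMonoid M where
  le_of_add_le_add_left a b c h := by
    by_contra hc
    have h1 := PModel.add_lt_add_right'' c b a (not_le.mp hc)
    rw [add_comm c a, add_comm b a] at h1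
    exact absurd h (not_le.mpr h1)

instance : IsStrictOrderedRing M where
  zero_le_one := PModel.zero_lt_one''.le
  exists_pair_ne := ⟨0, 1, (PModel.zero_lt_one'' (M := M)).ne⟩
  mul_lt_mul_of_pos_left a ha b c h := by
    have := PModel.mul_lt_mul_right'' b c a h ha
    rwa [mul_comm b a, mul_comm c a] at this
  mul_lt_mul_of_pos_right c hc a b h := PModel.mul_lt_mul_right'' a b c h hc

instance : CanonicallyOrderedAdd M where
  exists_add_of_le {a b} h := by
    obtain ⟨c, hc⟩ := PModel.exists_add'' a b h
    exact ⟨c, hc.symm⟩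
  le_add_self a b := by
    have := add_le_add_left (PModel.zero_le'' b) a
    simpa using this
  le_self_add a b := by
    have := add_le_add_left (PModel.zero_le'' b) a
    rw [zero_add, add_comm b a] at this
    exact this

theorem lt_add_one' (a : M) : a < a + 1 := by
  have := add_lt_add_left (PModel.zero_lt_one'' (M := M)) a
  rwa [zero_add, add_comm] at this

theorem add_one_le_of_lt {a b : M} (h : a < b) : a + 1 ≤ b := by
  obtain ⟨c, rfl⟩ := PModel.exists_add'' a b h.le
  have hc : 0 < c := by
    rcases eq_or_lt_of_le (PModel.zero_le'' c) with h0 | h0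
    · rw [← h0, add_zero] at h
      exact absurd h (lt_irrefl _)
    · exact h0
  have h1 := PModel.discrete'' c hc
  have := add_le_add_left h1 a
  rwa [add_comm 1 a, add_comm c a] at this

noncomputable instance : SuccAddOrder M where
  succ a := a + 1
  le_succ a := (lt_add_one' a).le
  max_of_succ_le {a} h := absurd (lt_add_one' a) (not_lt.mpr h)
  succ_le_of_lt h := add_one_le_of_lt h
  succ_eq_add_one _ := rfl

instance : NoMaxOrder M := ⟨fun a => ⟨a + 1, lt_add_one' a⟩⟩

theorem lt_add_one_iff' {a b : M} : a < b + 1 ↔ a ≤ b := Order.lt_add_one_iff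

theorem add_one_le_iff' {a b : M} : a + 1 ≤ b ↔ a < b := Order.add_one_le_iff

theorem pos_iff' {a : M} : 0 < a ↔ a ≠ 0 := pos_iff_ne_zero

theorem not_lt_zero'' (a : M) : ¬ a < 0 := not_lt.mpr zero_le

theorem exists_pred {a : M} (h : a ≠ 0) : ∃ b, a = b + 1 := by
  obtain ⟨c, hc⟩ := PModel.exists_add'' 1 a (PModel.discrete'' a (pos_iff'.mpr h))
  exact ⟨c, by rw [← hc, add_comm]⟩

theorem lt_one_iff'' {a : M} : a < 1 ↔ a = 0 := by
  constructor
  · intro h
    by_contra h0
    exact absurd (PModel.discrete'' a (pos_iff'.mpr h0)) (not_le.mpr h)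
  · rintro rfl
    exact PModel.zero_lt_one''

noncomputable instance : Sub M :=
  ⟨fun a b => if h : b ≤ a then Classical.choose (PModel.exists_add'' b a h) else 0⟩

theorem add_sub_of_le {a b : M} (h : b ≤ a) : b + (a - b) = a := by
  change b + (if h : b ≤ a then Classical.choose (PModel.exists_add'' b a h) else 0) = a
  rw [dif_pos h]
  exact Classical.choose_spec (PModel.exists_add'' b a h)

theorem sub_eq_zero_of_not_le {a b : M} (h : ¬ b ≤ a) : a - b = 0 := by
  change (if h : b ≤ a then Classical.choose (PModel.exists_add'' b a h) else 0) = 0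
  rw [dif_neg h]

instance : OrderedSub M where
  tsub_le_iff_right a b c := by
    by_cases h : b ≤ a
    · constructor
      · intro h1
        calc a = b + (a - b) := (add_sub_of_le h).symm
          _ ≤ b + c := by gcongr
          _ = c + b := add_comm _ _
      · intro h1
        have h2 : b + (a - b) ≤ b + c := by
          rw [add_sub_of_le h, add_comm]
          exact h1
        exact le_of_add_le_add_left h2
    · rw [sub_eq_zero_of_not_le h]
      constructor
      · intro _
        exact (not_le.mp h).le.trans le_add_self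
      · intro _
        exact zero_le

instance : NoZeroDivisors M where
  eq_zero_or_eq_zero_of_mul_eq_zero {a b} h := by
    by_contra hc
    push Not at hc
    have ha := pos_iff'.mpr hc.1
    have hb := pos_iff'.mpr hc.2
    have := mul_pos ha hb
    rw [h] at this
    exact lt_irrefl _ this

/-- Pairing: `pair x y = (x + y)² + x`. -/
def pair (x y : M) : M := (x + y) * (x + y) + x

theorem le_pair_left (x y : M) : x ≤ pair x y := le_add_self

theorem le_mul_self' (x : M) : x ≤ x * x := by
  by_cases h : x = 0
  · rw [h, zero_mul]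
  · calc x = x * 1 := (mul_one x).symm
      _ ≤ x * x := by
        gcongr
        exact PModel.discrete'' x (pos_iff'.mpr h)

theorem le_pair_right (x y : M) : y ≤ pair x y := by
  calc y ≤ x + y := le_add_self
    _ ≤ (x + y) * (x + y) := le_mul_self' _
    _ ≤ pair x y := le_self_add

theorem pair_lt_aux {x y x' y' : M} (h : x + y < x' + y') : pair x y < pair x' y' := by
  have h1 : x + y + 1 ≤ x' + y' := add_one_le_of_lt h
  have hx : x ≤ x + y := le_self_add
  calc pair x y = (x + y) * (x + y) + x := rfl
    _ ≤ (x + y) * (x + y) + (x + y) := by gcongr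
    _ < (x + y) * (x + y) + (x + y) + 1 := lt_add_one' _
    _ ≤ (x + y) * (x + y) + (x + y) + 1 + (x + y) := le_self_add
    _ = (x + y + 1) * (x + y + 1) := by ring
    _ ≤ (x' + y') * (x' + y') := by gcongr
    _ ≤ pair x' y' := le_self_add

theorem pair_inj {x y x' y' : M} (h : pair x y = pair x' y') : x = x' ∧ y = y' := by
  have hs : x + y = x' + y' := by
    rcases lt_trichotomy (x + y) (x' + y') with h1 | h1 | h1
    · exact absurd h (pair_lt_aux h1).ne
    · exact h1
    · exact absurd h.symm (pair_lt_aux h1).ne
  have hx : x = x' := by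
    unfold pair at h
    rw [hs] at h
    exact add_left_cancel h
  refine ⟨hx, ?_⟩
  rw [hx] at hs
  exact add_left_cancel hs

theorem pair_inj_iff {x y x' y' : M} : pair x y = pair x' y' ↔ x = x' ∧ y = y' :=
  ⟨pair_inj, by rintro ⟨rfl, rfl⟩; rfl⟩

theorem pair_mono {x y x' y' : M} (hx : x ≤ x') (hy : y ≤ y') : pair x y ≤ pair x' y' := by
  unfold pair
  gcongr

end Pool.Agent.Helper70.BRT
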