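import Pool.Agent.Helper70.BRT.Spec
import Pool.Agent.Helper18.BRT.IS1

/-! # Cardinalities of coded sets -/

namespace Pool.Agent.Helper70.BRT

universe u

variable {M : Type u} [PModel M]

/-- The part of `c` below `n`. -/
noncomputable def pre (c n : M) : M := mk n (fun x => el x c)

variable {bd pw card : M → M}

theorem el_pre (hM : IS1 (fun _ : ℕ => (∅ : Set M))) (hC : CodAPI M bd) (c n x : M) :
    el x (pre c n) ↔ x < n ∧ el x c :=
  hC.mk_spec _ hM.base (fun x => el x c) (hC.el_rec.comp (Rec.id.prodMk (Rec.const c))) n x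

theorem pre_rec (hM : IS1 (fun _ : ℕ => (∅ : Set M))) (hC : CodAPI M bd) (hP : PrimAPI M pw card)
    (c : M) : Rec (fun _ : ℕ => (∅ : Set M)) (fun n : M => card (pre c n)) := by
  refine hP.card_rec.comp ?_
  exact hC.mk_rec _ hM.base M (fun _ x => el x c) (fun n => n)
    (hC.el_rec.comp (Rec.id.snd.prodMk (Rec.const c))) Rec.id

theorem card_congr (hM : IS1 (fun _ : ℕ => (∅ : Set M))) (hC : CodAPI M bd)
    (hP : PrimAPI M pw card) (c c' : M) (h : ∀ x, el x c ↔ el x c') : card c = card c' := by
  by_cases h0 : ∃ j, el j c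
  · obtain ⟨j, hj⟩ := h0
    have hs := fun x => hC.mk_spec _ hM.base (fun x => el x c ∧ x ≠ j)
      ((hC.el_rec.comp (Rec.id.prodMk (Rec.const c))).and (RecP.eq Rec.id (Rec.const j)).not) c x
    have hs2 : ∀ x, el x c ↔ el x (mk c (fun x => el x c ∧ x ≠ j)) ∨ x = j := by
      intro x
      rw [hs]
      constructor
      · intro hx
        by_cases hxj : x = j
        · exact Or.inr hxj
        · exact Or.inl ⟨hC.el_lt _ _ hx, hx, hxj⟩
      · rintro (hx | rfl)
        · exact hx.2.1
        · exact hj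
    have hn : ¬ el j (mk c (fun x => el x c ∧ x ≠ j)) := by
      rw [hs]
      exact fun h => h.2.2 rfl
    rw [hP.card_insert _ c j hn hs2, hP.card_insert _ c' j hn (fun x => (h x).symm.trans (hs2 x))]
  · have h1 : ∀ x, ¬ el x c := fun x hx => h0 ⟨x, hx⟩
    rw [hP.card_empty c h1, hP.card_empty c' (fun x hx => h1 x ((h x).mpr hx))]

theorem card_pre_zero (hM : IS1 (fun _ : ℕ => (∅ : Set M))) (hC : CodAPI M bd)
    (hP : PrimAPI M pw card) (c : M) : card (pre c 0) = 0 := by
  refine hP.card_empty _ fun x hx => ?_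
  exact not_lt_zero'' x ((el_pre hM hC c 0 x).mp hx).1

theorem card_pre_succ_pos (hM : IS1 (fun _ : ℕ => (∅ : Set M))) (hC : CodAPI M bd)
    (hP : PrimAPI M pw card) (c n : M) (h : el n c) : card (pre c (n + 1)) = card (pre c n) + 1 := by
  refine hP.card_insert _ _ n (fun hx => lt_irrefl n ((el_pre hM hC c n n).mp hx).1) fun x => ?_
  rw [el_pre hM hC, el_pre hM hC]
  constructor
  · rintro ⟨h1, h2⟩
    rcases eq_or_lt_of_le (lt_add_one_iff'.mp h1) with h3 | h3
    · exact Or.inr h3
    · exact Or.inl ⟨h3, h2⟩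
  · rintro (h1 | rfl)
    · exact ⟨h1.1.trans (lt_add_one' n), h1.2⟩
    · exact ⟨lt_add_one' x, h⟩

theorem card_pre_succ_neg (hM : IS1 (fun _ : ℕ => (∅ : Set M))) (hC : CodAPI M bd)
    (hP : PrimAPI M pw card) (c n : M) (h : ¬ el n c) : card (pre c (n + 1)) = card (pre c n) := by
  refine card_congr hM hC hP _ _ fun x => ?_
  rw [el_pre hM hC, el_pre hM hC]
  constructor
  · rintro ⟨h1, h2⟩
    rcases eq_or_lt_of_le (lt_add_one_iff'.mp h1) with h3 | h3
    · exact absurd (h3 ▸ h2) h
    · exact ⟨h3, h2⟩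
  · rintro ⟨h1, h2⟩
    exact ⟨h1.trans (lt_add_one' n), h2⟩

theorem card_pre_full (hM : IS1 (fun _ : ℕ => (∅ : Set M))) (hC : CodAPI M bd)
    (hP : PrimAPI M pw card) (c n : M) (h : ∀ x, el x c → x < n) : card (pre c n) = card c := by
  refine card_congr hM hC hP _ _ fun x => ?_
  rw [el_pre hM hC]
  exact ⟨fun h1 => h1.2, fun h1 => ⟨h x h1, h1⟩⟩

theorem card_mono (hM : IS1 (fun _ : ℕ => (∅ : Set M))) (hC : CodAPI M bd)
    (hP : PrimAPI M pw card) (c c' : M) (h : ∀ x, el x c → el x c') : card c ≤ card c' := by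
  have key : ∀ n, card (pre c n) ≤ card (pre c' n) := by
    refine hM.base.ind _ ?_ ?_ ?_
    · exact RecP.le (pre_rec hM hC hP c) (pre_rec hM hC hP c')
    · rw [card_pre_zero hM hC hP]
      exact zero_le
    · intro n hn
      by_cases h1 : el n c
      · rw [card_pre_succ_pos hM hC hP c n h1, card_pre_succ_pos hM hC hP c' n (h n h1)]
        gcongr
      · rw [card_pre_succ_neg hM hC hP c n h1]
        by_cases h2 : el n c'
        · rw [card_pre_succ_pos hM hC hP c' n h2]
          exact hn.trans (lt_add_one' _).le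
        · rw [card_pre_succ_neg hM hC hP c' n h2]
          exact hn
  have := key (c + c')
  rwa [card_pre_full hM hC hP c _ (fun x hx => (hC.el_lt _ _ hx).trans_le le_self_add),
    card_pre_full hM hC hP c' _ (fun x hx => (hC.el_lt _ _ hx).trans_le le_add_self)] at this

theorem card_split (hM : IS1 (fun _ : ℕ => (∅ : Set M))) (hC : CodAPI M bd)
    (hP : PrimAPI M pw card) (c c₁ c₂ : M) (h : ∀ x, el x c → el x c₁ ∨ el x c₂) :
    card c ≤ card c₁ + card c₂ := by
  have key : ∀ n, card (pre c n) ≤ card (pre c₁ n) + card (pre c₂ n) := by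
    refine hM.base.ind _ ?_ ?_ ?_
    · exact RecP.le (pre_rec hM hC hP c) ((pre_rec hM hC hP c₁).add (pre_rec hM hC hP c₂))
    · rw [card_pre_zero hM hC hP]
      exact zero_le
    · intro n hn
      have m1 : card (pre c₁ n) ≤ card (pre c₁ (n + 1)) := card_mono hM hC hP _ _ (fun x hx => by
        rw [el_pre hM hC] at hx ⊢
        exact ⟨hx.1.trans (lt_add_one' n), hx.2⟩)
      have m2 : card (pre c₂ n) ≤ card (pre c₂ (n + 1)) := card_mono hM hC hP _ _ (fun x hx => by
        rw [el_pre hM hC] at hx ⊢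
        exact ⟨hx.1.trans (lt_add_one' n), hx.2⟩)
      by_cases h1 : el n c
      · rw [card_pre_succ_pos hM hC hP c n h1]
        rcases h n h1 with h2 | h2
        · rw [card_pre_succ_pos hM hC hP c₁ n h2]
          calc card (pre c n) + 1 ≤ (card (pre c₁ n) + card (pre c₂ n)) + 1 := by gcongr
            _ = (card (pre c₁ n) + 1) + card (pre c₂ n) := by ring
            _ ≤ _ := by gcongr
        · rw [card_pre_succ_pos hM hC hP c₂ n h2]
          calc card (pre c n) + 1 ≤ (card (pre c₁ n) + card (pre c₂ n)) + 1 := by gcongr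
            _ = card (pre c₁ n) + (card (pre c₂ n) + 1) := by ring
            _ ≤ _ := by gcongr
      · rw [card_pre_succ_neg hM hC hP c n h1]
        calc card (pre c n) ≤ card (pre c₁ n) + card (pre c₂ n) := hn
          _ ≤ _ := by gcongr
  have := key (c + c₁ + c₂)
  rwa [card_pre_full hM hC hP c _ (fun x hx =>
      ((hC.el_lt _ _ hx).trans_le le_self_add).trans_le le_self_add),
    card_pre_full hM hC hP c₁ _ (fun x hx =>
      ((hC.el_lt _ _ hx).trans_le le_add_self).trans_le le_self_add),
    card_pre_full hM hC hP c₂ _ (fun x hx => (hC.el_lt _ _ hx).trans_le le_add_self)] at this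

/-- Inserting one element. -/
theorem exists_insert (hM : IS1 (fun _ : ℕ => (∅ : Set M))) (hC : CodAPI M bd) (c j : M) :
    ∃ c', ∀ x, el x c' ↔ el x c ∨ x = j := by
  refine ⟨mk (c + (j + 1)) (fun x => el x c ∨ x = j), fun x => ?_⟩
  rw [hC.mk_spec _ hM.base (fun x => el x c ∨ x = j)
      ((hC.el_rec.comp (Rec.id.prodMk (Rec.const c))).or (RecP.eq Rec.id (Rec.const j)))]
  refine ⟨fun h => h.2, fun h => ⟨?_, h⟩⟩
  rcases h with h | rfl
  · exact (hC.el_lt _ _ h).trans_le le_self_add
  · exact (lt_add_one' _).trans_le le_add_self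

theorem card_full (hM : IS1 (fun _ : ℕ => (∅ : Set M))) (hC : CodAPI M bd)
    (hP : PrimAPI M pw card) (n : M) : ∀ c, (∀ x, el x c ↔ x < n) → card c = n := by
  have key : ∀ n, card (mk n (fun _ => True)) = n := by
    refine hM.base.ind _ ?_ ?_ ?_
    · exact RecP.eq (hP.card_rec.comp (hC.mk_rec _ hM.base M (fun _ _ => True) (fun n => n)
        (RecP.const True) Rec.id)) Rec.id
    · refine hP.card_empty _ fun x hx => ?_
      rw [hC.mk_spec _ hM.base (fun _ => True) (RecP.const True)] at hx
      exact not_lt_zero'' x hx.1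
    · intro n hn
      rw [hP.card_insert (mk n (fun _ => True)) (mk (n + 1) (fun _ => True)) n ?_ ?_, hn]
      · rw [hC.mk_spec _ hM.base (fun _ => True) (RecP.const True)]
        exact fun h => lt_irrefl _ h.1
      · intro x
        rw [hC.mk_spec _ hM.base (fun _ => True) (RecP.const True),
          hC.mk_spec _ hM.base (fun _ => True) (RecP.const True)]
        simp only [and_true]
        rw [lt_add_one_iff', le_iff_lt_or_eq]
  intro c hc
  rw [← key n]
  refine card_congr hM hC hP _ _ fun x => ?_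
  rw [hc, hC.mk_spec _ hM.base (fun _ => True) (RecP.const True)]
  simp

theorem card_strict (hM : IS1 (fun _ : ℕ => (∅ : Set M))) (hC : CodAPI M bd)
    (hP : PrimAPI M pw card) (c c' j : M) (h : ∀ x, el x c → el x c') (hj : el j c')
    (hjc : ¬ el j c) : card c < card c' := by
  obtain ⟨c₁, hc₁⟩ := exists_insert hM hC c j
  have h1 := hP.card_insert c c₁ j hjc hc₁
  have h2 := card_mono hM hC hP c₁ c' (fun x hx => by
    rcases (hc₁ x).mp hx with hx | rfl
    · exact h x hx
    · exact hj)
  rw [h1] at h2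
  exact add_one_le_iff'.mp h2

theorem card_le (hM : IS1 (fun _ : ℕ => (∅ : Set M))) (hC : CodAPI M bd)
    (hP : PrimAPI M pw card) (c n : M) (h : ∀ x, el x c → x < n) : card c ≤ n := by
  obtain ⟨d, hd⟩ : ∃ d, ∀ x : M, el x d ↔ x < n :=
    ⟨mk n (fun _ => True), fun x => by
      rw [hC.mk_spec _ hM.base (fun _ => True) (RecP.const True)]
      simp⟩
  have h1 := card_mono hM hC hP c d (fun x hx => (hd x).mpr (h x hx))
  rwa [card_full hM hC hP n d hd] at h1

theorem card_pos (hP : PrimAPI M pw card) (c : M) (hc : 0 < card c) : ∃ x, el x c := by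
  by_contra h
  exact absurd (hP.card_empty c (fun x hx => h ⟨x, hx⟩)) hc.ne'

theorem card_remove (hM : IS1 (fun _ : ℕ => (∅ : Set M))) (hC : CodAPI M bd)
    (hP : PrimAPI M pw card) (c c' j : M) (h : ∀ x, el x c → x = j ∨ el x c') :
    card c ≤ card c' + 1 := by
  by_cases hj : el j c'
  · refine (card_mono hM hC hP c c' fun x hx => ?_).trans (lt_add_one' _).le
    rcases h x hx with rfl | hx
    · exact hj
    · exact hx
  · obtain ⟨c₁, hc₁⟩ := exists_insert hM hC c' j
    rw [← hP.card_insert c' c₁ j hj hc₁]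
    exact card_mono hM hC hP c c₁ fun x hx => (hc₁ x).mpr ((h x hx).symm)

theorem st_CARD : ST_CARD.{u} := by
  intro M _ hM0 bd hC pw card hP
  have hM := hM0.is1
  refine ⟨card_congr hM hC hP, card_mono hM hC hP, card_strict hM hC hP, card_le hM hC hP,
    card_pos hP, card_split hM hC hP, card_remove hM hC hP, ?_⟩
  · intro A hA κ hκ b m K hK hb
    by_contra hc
    push Not at hc
    have hcard : Rec A card := hP.card_rec.of_pure A
    have ms : ∀ (P : M → Prop), RecP A P → ∀ x, el x (mk K P) ↔ x < K ∧ P x :=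
      fun P hP x => hC.mk_spec A hA.base P hP K x
    have key : ∀ t, (t ≤ b + 1 → card (mk K (fun i => κ i < t)) + t ≤ t * m) := by
      refine hA.base.ind _ ?_ ?_ ?_
      · refine RecP.imp (RecP.le Rec.id (Rec.const _)) (RecP.le (Rec.add ?_ Rec.id)
          (Rec.mul Rec.id (Rec.const m)))
        refine hcard.comp (hC.mk_rec _ hA.base M (fun t i => κ i < t) (fun _ => K) ?_ (Rec.const K))
        exact RecP.lt (hκ.comp Rec.id.snd) Rec.id.fst
      · intro _
        rw [hP.card_empty, zero_mul, zero_add]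
        intro x hx
        exact not_lt_zero'' _ ((ms _ (RecP.lt hκ (Rec.const 0)) x).mp hx).2
      · intro t ih ht
        have h1 := ih ((lt_add_one' t).le.trans ht)
        have h2 := hc t (by
          have := add_one_le_iff'.mp ht
          exact lt_add_one_iff'.mp this)
        have h3 := card_split hM hC hP (mk K (fun i => κ i < t + 1)) (mk K (fun i => κ i < t))
          (mk K (fun i => κ i = t)) (fun x hx => by
            rw [ms _ (RecP.lt hκ (Rec.const _))] at hx
            rw [ms _ (RecP.lt hκ (Rec.const _)), ms _ (RecP.eq hκ (Rec.const _))]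
            rcases eq_or_lt_of_le (lt_add_one_iff'.mp hx.2) with h4 | h4
            · exact Or.inr ⟨hx.1, h4⟩
            · exact Or.inl ⟨hx.1, h4⟩)
        calc card (mk K (fun i => κ i < t + 1)) + (t + 1)
            ≤ (card (mk K (fun i => κ i < t)) + card (mk K (fun i => κ i = t))) + (t + 1) := by
              gcongr
          _ = (card (mk K (fun i => κ i < t)) + t) + (card (mk K (fun i => κ i = t)) + 1) := by ring
          _ ≤ t * m + m := by
              gcongr
              exact add_one_le_of_lt h2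
          _ = (t + 1) * m := by ring
    have h1 := key (b + 1) le_rfl
    rw [card_full hM hC hP K _ (fun x => by
      rw [ms _ (RecP.lt hκ (Rec.const _))]
      exact ⟨fun h => h.1, fun h => ⟨h, lt_add_one_iff'.mpr (hb x h)⟩⟩)] at h1
    have h2 : K + (b + 1) ≤ K + 0 := by
      rw [add_zero]
      exact h1.trans hK
    have h3 := le_of_add_le_add_left h2
    exact absurd (lt_add_one' b) (not_lt.mpr (h3.trans zero_le))

end Pool.Agent.Helper70.BRT
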