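import Pool.Agent.Helper70.BRT.Use
import Pool.Agent.Helper18.BRT.IS1

/-! # Module COD: coding of finite sets -/

namespace Pool.Agent.Helper70.BRT

universe u

variable {M : Type u} [PModel M] {A : ℕ → Set M}

theorem cod_dvd_of_add {p c A B : M} (h : c + p * A = p * B) : p ∣ c := by
  have h1 : p * A ≤ p * B := by rw [← h]; exact le_add_self
  by_cases hp : p = 0
  · rw [hp, zero_mul, zero_mul, add_zero] at h
    rw [h]
    exact dvd_zero _
  · have h2 : A ≤ B := by
      by_contra hc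
      exact absurd h1 (not_le.mpr (mul_lt_mul_of_pos_left (not_le.mp hc) (pos_iff'.mpr hp)))
    obtain ⟨D, rfl⟩ := PModel.exists_add'' A B h2
    refine ⟨D, ?_⟩
    have h3 : p * A + c = p * A + p * D := by rw [← mul_add, ← h, add_comm]
    exact add_left_cancel h3

/-- The moduli. -/
def md (m x : M) : M := 1 + (x + 1) * m

theorem md_coprime {m x y n : M} (hm : ∀ i, 0 < i → i ≤ n → i ∣ m) (hx : x < n) (hy : y < n)
    (hxy : x ≠ y) {c : M} (h : md m x ∣ md m y * c) : md m x ∣ c := by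
  obtain ⟨e, he⟩ := h
  rcases lt_or_gt_of_ne hxy with h1 | h1
  · obtain ⟨d, hd⟩ := PModel.exists_add'' x y h1.le
    have hd0 : 0 < d := by
      rcases eq_or_lt_of_le (PModel.zero_le'' d) with h0 | h0
      · rw [← h0, add_zero] at hd
        exact absurd hd h1.ne
      · exact h0
    have hdn : d ≤ n := le_trans (by rw [← hd]; exact le_add_self) hy.le
    obtain ⟨k, hk⟩ := hm d hd0 hdn
    subst hk
    subst hd
    apply cod_dvd_of_add (A := (x + 1) * k * (x + d + 1) * c) (B := c + (x + 1) * (x + 1) * k * e)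
    have he' : (x + 1) * (x + 1) * k * (md (d * k) (x + d) * c) =
        (x + 1) * (x + 1) * k * (md (d * k) x * e) := by rw [he]
    calc c + md (d * k) x * ((x + 1) * k * (x + d + 1) * c)
        = md (d * k) x * c + (x + 1) * (x + 1) * k * (md (d * k) (x + d) * c) := by
          unfold md
          ring
      _ = md (d * k) x * (c + (x + 1) * (x + 1) * k * e) := by
          rw [he']
          ring
  · obtain ⟨d, hd⟩ := PModel.exists_add'' y x h1.le
    have hd0 : 0 < d := by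
      rcases eq_or_lt_of_le (PModel.zero_le'' d) with h0 | h0
      · rw [← h0, add_zero] at hd
        exact absurd hd h1.ne
      · exact h0
    have hdn : d ≤ n := le_trans (by rw [← hd]; exact le_add_self) hx.le
    obtain ⟨k, hk⟩ := hm d hd0 hdn
    subst hk
    subst hd
    apply cod_dvd_of_add (A := (y + d + 1) * (y + d + 1) * k * e)
      (B := c + (y + d + 1) * k * (y + 1) * c)
    have he' : (y + d + 1) * (y + d + 1) * k * (md (d * k) y * c) =
        (y + d + 1) * (y + d + 1) * k * (md (d * k) (y + d) * e) := by rw [he]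
    calc c + md (d * k) (y + d) * ((y + d + 1) * (y + d + 1) * k * e)
        = c + (y + d + 1) * (y + d + 1) * k * (md (d * k) y * c) := by
          rw [he']
          ring
      _ = md (d * k) (y + d) * (c + (y + d + 1) * k * (y + 1) * c) := by
          unfold md
          ring

theorem dvd_rec (hA : Coll1 A) : RecP A (fun z : M × M => z.1 ∣ z.2) := by
  have h1 : RecP A (fun z : M × M => ∃ k, k < z.2 + 1 ∧ z.2 = z.1 * k) := by
    refine RecP.bex (R := fun (z : M × M) k => z.2 = z.1 * k) hA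
      (PMap.id.snd.rec.add (Rec.const 1)) ?_
    exact RecP.eq PMap.id.fst.snd.rec (PMap.id.fst.fst.rec.mul PMap.id.snd.rec)
  refine h1.congr fun z => ?_
  constructor
  · rintro ⟨k, hk⟩
    by_cases hz : z.1 = 0
    · refine ⟨0, lt_add_one_iff'.mpr (PModel.zero_le'' _), ?_⟩
      rw [hk, hz, zero_mul, zero_mul]
    · refine ⟨k, lt_add_one_iff'.mpr ?_, hk⟩
      rw [hk]
      calc k = 1 * k := (one_mul k).symm
        _ ≤ z.1 * k := by
          gcongr
          exact PModel.discrete'' _ (pos_iff'.mpr hz)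
  · rintro ⟨k, -, hk⟩
    exact ⟨k, hk⟩

theorem md_rec : Rec A (fun z : M × M => md z.1 z.2) :=
  (Rec.const 1).add ((PMap.id.snd.rec.add (Rec.const 1)).mul PMap.id.fst.rec)

/-- The multiplier for `n`. -/
noncomputable def mm (n : M) : M := mu fun m => 0 < m ∧ ∀ i, i < n + 1 → 0 < i → i ∣ m

theorem mm_rel_rec (hA : Coll1 A) :
    RecP A (fun z : M × M => 0 < z.2 ∧ ∀ i, i < z.1 + 1 → 0 < i → i ∣ z.2) := by
  refine (RecP.lt (Rec.const 0) PMap.id.snd.rec).and ?_
  refine RecP.ball (R := fun (z : M × M) i => 0 < i → i ∣ z.2) hA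
    (PMap.id.fst.rec.add (Rec.const 1)) ?_
  refine (RecP.lt (Rec.const 0) PMap.id.snd.rec).imp ?_
  exact (dvd_rec hA).comp (PMap.id.snd.rec.prodMk PMap.id.fst.snd.rec)

theorem mm_exists (hA : IS1 A) (n : M) : ∃ m : M, 0 < m ∧ ∀ i, i < n + 1 → 0 < i → i ∣ m := by
  revert n
  refine hA.ind _ (Sig1.ex (R := fun (n : M) m => 0 < m ∧ ∀ i, i < n + 1 → 0 < i → i ∣ m)
    (mm_rel_rec hA.coll1).1) ?_ ?_
  · refine ⟨1, PModel.zero_lt_one'', fun i hi hi0 => ?_⟩
    rw [zero_add, lt_one_iff''] at hi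
    exact absurd hi (pos_iff'.mp hi0)
  · rintro n ⟨m, hm, h⟩
    refine ⟨m * (n + 1), mul_pos hm (lt_of_le_of_lt (PModel.zero_le'' n) (lt_add_one' n)),
      fun i hi hi0 => ?_⟩
    rcases eq_or_lt_of_le (lt_add_one_iff'.mp hi) with h1 | h1
    · rw [h1]
      exact dvd_mul_left _ _
    · exact (h i h1 hi0).mul_right _

theorem mm_spec (hA : IS1 A) (n : M) : 0 < mm n ∧ ∀ i, i < n + 1 → 0 < i → i ∣ mm n :=
  (mu_spec hA.base (RecP.comp (F := fun m : M => (n, m)) (mm_rel_rec hA.coll1)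
    ((Rec.const n).prodMk Rec.id)) (mm_exists hA n)).1

theorem mm_rec (hA : IS1 A) : Rec A (mm : M → M) :=
  Rec.mu (R := fun (n : M) m => 0 < m ∧ ∀ i, i < n + 1 → 0 < i → i ∣ m) hA.base
    (mm_rel_rec hA.coll1) (mm_exists hA)

/-- The least positive multiple of the moduli of the elements of `P` below `n`. -/
noncomputable def lc (n : M) (P : M → Prop) : M :=
  mu fun a => 0 < a ∧ ∀ x, x < n → P x → md (mm n) x ∣ a

theorem lc_rel_rec (hM : IS1 (fun _ : ℕ => (∅ : Set M))) (hA : Base A) {Γ : Type u} [Ctx M Γ]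
    {n : Γ → M} {P : Γ → M → Prop} (hn : Rec A n) (hP : RecP A (fun g : Γ × M => P g.1 g.2)) :
    RecP A (fun z : Γ × M => 0 < z.2 ∧ ∀ x, x < n z.1 → P z.1 x → md (mm (n z.1)) x ∣ z.2) := by
  refine (RecP.lt (Rec.const 0) PMap.id.snd.rec).and ?_
  refine RecP.ball (R := fun (z : Γ × M) x => P z.1 x → md (mm (n z.1)) x ∣ z.2) hA.coll
    (hn.comp PMap.id.fst.rec) ?_
  refine (hP.comp (PMap.id.fst.fst.rec.prodMk PMap.id.snd.rec)).imp ?_
  refine (dvd_rec hA.coll).comp (Rec.prodMk ?_ PMap.id.fst.snd.rec)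
  refine Rec.comp (F := fun z : M × M => md z.1 z.2) md_rec (Rec.prodMk ?_ PMap.id.snd.rec)
  exact Rec.comp (F := mm) ((mm_rec hM).of_pure A) (hn.comp PMap.id.fst.fst.rec)

theorem md_pos (m x : M) : 0 < md m x :=
  lt_of_lt_of_le PModel.zero_lt_one'' le_self_add

theorem lc_exists (hM : IS1 (fun _ : ℕ => (∅ : Set M))) (n : M) :
    ∃ a : M, 0 < a ∧ ∀ x, x < n → md (mm n) x ∣ a := by
  have key : ∀ j : M, ∃ a : M, 0 < a ∧ ∀ x, x < j → md (mm n) x ∣ a := by
    refine hM.ind _ ?_ ?_ ?_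
    · refine Sig1.ex (R := fun (j : M) a => 0 < a ∧ ∀ x, x < j → md (mm n) x ∣ a) (RecP.sig1 ?_)
      refine (RecP.lt (Rec.const 0) PMap.id.snd.rec).and ?_
      refine RecP.ball (R := fun (z : M × M) x => md (mm n) x ∣ z.2) hM.coll1 PMap.id.fst.rec ?_
      refine (dvd_rec hM.coll1).comp (Rec.prodMk ?_ PMap.id.fst.snd.rec)
      exact Rec.comp (F := fun z : M × M => md z.1 z.2) md_rec
        (Rec.prodMk (Rec.const _) PMap.id.snd.rec)
    · exact ⟨1, PModel.zero_lt_one'', fun x hx => absurd hx (not_lt_zero'' x)⟩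
    · rintro j ⟨a, ha, h⟩
      refine ⟨a * md (mm n) j, mul_pos ha (md_pos _ _), fun x hx => ?_⟩
      rcases eq_or_lt_of_le (lt_add_one_iff'.mp hx) with h1 | h1
      · rw [h1]
        exact dvd_mul_left _ _
      · exact (h x h1).mul_right _
  exact key n

theorem lc_spec (hM : IS1 (fun _ : ℕ => (∅ : Set M))) (hA : Base A) (n : M) {P : M → Prop}
    (hP : RecP A P) :
    (0 < lc n P ∧ ∀ x, x < n → P x → md (mm n) x ∣ lc n P) ∧
      ∀ y, y < lc n P → ¬ (0 < y ∧ ∀ x, x < n → P x → md (mm n) x ∣ y) := by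
  have h1 := lc_rel_rec (Γ := M) (n := fun _ => n) (P := fun _ x => P x) hM hA (Rec.const n)
    (hP.comp PMap.id.snd.rec)
  refine mu_spec hA (RecP.comp (F := fun a : M => ((0 : M), a)) h1 ((Rec.const 0).prodMk Rec.id)) ?_
  obtain ⟨a, ha, h⟩ := lc_exists hM n
  exact ⟨a, ha, fun x hx _ => h x hx⟩

theorem lc_dvd (hM : IS1 (fun _ : ℕ => (∅ : Set M))) (hA : Base A) (n : M) {P : M → Prop}
    (hP : RecP A P) {x : M} (hx : x < n) : md (mm n) x ∣ lc n P ↔ P x := by
  obtain ⟨⟨h0, h1⟩, h2⟩ := lc_spec hM hA n hP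
  constructor
  · intro h
    by_contra hPx
    obtain ⟨e, he⟩ := h
    have he0 : 0 < e := by
      rcases eq_or_lt_of_le (PModel.zero_le'' e) with h3 | h3
      · rw [← h3, mul_zero] at he
        exact absurd he h0.ne'
      · exact h3
    have hlt : e < lc n P := by
      rw [he]
      calc e = 1 * e := (one_mul e).symm
        _ < md (mm n) x * e := by
          refine mul_lt_mul_of_pos_right ?_ he0
          unfold md
          exact lt_add_of_pos_right _ (mul_pos
            (lt_of_le_of_lt (PModel.zero_le'' x) (lt_add_one' x)) (mm_spec hM n).1)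
    refine h2 e hlt ⟨he0, fun y hy hPy => ?_⟩
    have hne : y ≠ x := by
      rintro rfl
      exact hPx hPy
    refine md_coprime (n := n) (fun i hi hin => (mm_spec hM n).2 i (lt_add_one_iff'.mpr hin) hi)
      hy hx hne ?_
    rw [← he]
    exact h1 y hy hPy
  · exact h1 x hx

theorem lc_mono (hM : IS1 (fun _ : ℕ => (∅ : Set M))) (hA : Base A) (n : M) {P : M → Prop}
    (hP : RecP A P) : lc n P ≤ lc n (fun _ => True) := by
  by_contra hc
  obtain ⟨-, h2⟩ := lc_spec hM hA n hP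
  obtain ⟨⟨h3, h4⟩, -⟩ := lc_spec hM hM.base n (RecP.const True)
  exact h2 _ (not_le.mp hc) ⟨h3, fun x hx _ => h4 x hx trivial⟩

theorem el_pair {n a m x : M} : el x (pair n (pair a m)) ↔ x < n ∧ md m x ∣ a := by
  constructor
  · rintro ⟨n', a', m', q, h, hx, ha⟩
    obtain ⟨rfl, h2⟩ := pair_inj h
    obtain ⟨rfl, rfl⟩ := pair_inj h2
    exact ⟨hx, ⟨q, by rw [ha, mul_comm]; rfl⟩⟩
  · rintro ⟨hx, ⟨q, hq⟩⟩
    exact ⟨n, a, m, q, rfl, hx, by rw [hq, mul_comm]; rfl⟩

theorem el_lt' {x c : M} (h : el x c) : x < c := by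
  obtain ⟨n, a, m, q, rfl, hx, -⟩ := h
  exact lt_of_lt_of_le hx (le_pair_left _ _)

theorem el_rec' : RecP A (fun z : M × M => el z.1 z.2) := by
  have h1 : D0 A (fun z : M × M => ∃ n, n < z.2 + 1 ∧ ∃ a, a < z.2 + 1 ∧ ∃ m, m < z.2 + 1 ∧
      ∃ q, q < z.2 + 1 ∧ (z.2 = pair n (pair a m) ∧ z.1 < n ∧ a = q * (1 + (z.1 + 1) * m))) := by
    refine D0.bex (R := fun (z : M × M) n => ∃ a, a < z.2 + 1 ∧ ∃ m, m < z.2 + 1 ∧
      ∃ q, q < z.2 + 1 ∧ (z.2 = pair n (pair a m) ∧ z.1 < n ∧ a = q * (1 + (z.1 + 1) * m)))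
      (PMap.id.snd.toPoly.add (Poly.const 1)) ?_
    refine D0.bex (R := fun (z : (M × M) × M) a => ∃ m, m < z.1.2 + 1 ∧
      ∃ q, q < z.1.2 + 1 ∧ (z.1.2 = pair z.2 (pair a m) ∧ z.1.1 < z.2 ∧
        a = q * (1 + (z.1.1 + 1) * m)))
      (PMap.id.fst.snd.toPoly.add (Poly.const 1)) ?_
    refine D0.bex (R := fun (z : ((M × M) × M) × M) m =>
      ∃ q, q < z.1.1.2 + 1 ∧ (z.1.1.2 = pair z.1.2 (pair z.2 m) ∧ z.1.1.1 < z.1.2 ∧
        z.2 = q * (1 + (z.1.1.1 + 1) * m)))
      (PMap.id.fst.fst.snd.toPoly.add (Poly.const 1)) ?_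
    refine D0.bex (R := fun (z : (((M × M) × M) × M) × M) q =>
      (z.1.1.1.2 = pair z.1.1.2 (pair z.1.2 z.2) ∧ z.1.1.1.1 < z.1.1.2 ∧
        z.1.2 = q * (1 + (z.1.1.1.1 + 1) * z.2)))
      (PMap.id.fst.fst.fst.snd.toPoly.add (Poly.const 1)) ?_
    refine (D0.eq PMap.id.fst.fst.fst.fst.snd.toPoly
      (Poly.pair PMap.id.fst.fst.fst.snd.toPoly
        (Poly.pair PMap.id.fst.fst.snd.toPoly PMap.id.fst.snd.toPoly))).and
      ((D0.lt PMap.id.fst.fst.fst.fst.fst.toPoly PMap.id.fst.fst.fst.snd.toPoly).and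
        (D0.eq PMap.id.fst.fst.snd.toPoly (PMap.id.snd.toPoly.mul
          ((Poly.const 1).add ((PMap.id.fst.fst.fst.fst.fst.toPoly.add (Poly.const 1)).mul
            PMap.id.fst.snd.toPoly)))))
  refine h1.recP.congr fun z => ?_
  constructor
  · rintro ⟨n, a, m, q, h, hx, ha⟩
    have hn : n ≤ z.2 := by rw [h]; exact le_pair_left _ _
    have ha' : a ≤ z.2 := by
      rw [h]
      exact (le_pair_left a m).trans (le_pair_right _ _)
    have hm : m ≤ z.2 := by
      rw [h]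
      exact (le_pair_right a m).trans (le_pair_right _ _)
    have hq : q ≤ a := by
      rw [ha]
      calc q = q * 1 := (mul_one q).symm
        _ ≤ q * (1 + (z.1 + 1) * m) := by
          gcongr
          exact le_self_add
    exact ⟨n, lt_add_one_iff'.mpr hn, a, lt_add_one_iff'.mpr ha', m, lt_add_one_iff'.mpr hm, q,
      lt_add_one_iff'.mpr (hq.trans ha'), h, hx, ha⟩
  · rintro ⟨n, -, a, -, m, -, q, -, h⟩
    exact ⟨n, a, m, q, h⟩

/-- The code of `{x < n : P x}`. -/
noncomputable def cd (n : M) (P : M → Prop) : M := pair n (pair (lc n P) (mm n))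

theorem el_cd (hM : IS1 (fun _ : ℕ => (∅ : Set M))) (hA : Base A) (n : M) {P : M → Prop}
    (hP : RecP A P) (x : M) : el x (cd n P) ↔ x < n ∧ P x := by
  unfold cd
  rw [el_pair]
  constructor
  · rintro ⟨h1, h2⟩
    exact ⟨h1, (lc_dvd hM hA n hP h1).mp h2⟩
  · rintro ⟨h1, h2⟩
    exact ⟨h1, (lc_dvd hM hA n hP h1).mpr h2⟩

theorem mk_rel_rec (hA : Base A) {Γ : Type u} [Ctx M Γ] {n : Γ → M} {P : Γ → M → Prop}
    (hn : Rec A n) (hP : RecP A (fun g : Γ × M => P g.1 g.2)) :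
    RecP A (fun z : Γ × M => ∀ x, el x z.2 ↔ x < n z.1 ∧ P z.1 x) := by
  have h1 : RecP A (fun z : Γ × M => ∀ x, x < z.2 + n z.1 → (el x z.2 ↔ x < n z.1 ∧ P z.1 x)) := by
    refine RecP.ball (R := fun (z : Γ × M) x => (el x z.2 ↔ x < n z.1 ∧ P z.1 x)) hA.coll
      (PMap.id.snd.rec.add (hn.comp PMap.id.fst.rec)) ?_
    refine RecP.iff (el_rec'.comp (PMap.id.snd.rec.prodMk PMap.id.fst.snd.rec)) (RecP.and ?_ ?_)
    · exact RecP.lt PMap.id.snd.rec (hn.comp PMap.id.fst.fst.rec)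
    · exact hP.comp (PMap.id.fst.fst.rec.prodMk PMap.id.snd.rec)
  refine h1.congr fun z => ⟨fun h x _ => h x, fun h x => ?_⟩
  by_cases hx : x < z.2 + n z.1
  · exact h x hx
  · have hx' := not_lt.mp hx
    constructor
    · intro h2
      exact absurd (el_lt' h2) (not_lt.mpr (le_self_add.trans hx'))
    · rintro ⟨h2, -⟩
      exact absurd h2 (not_lt.mpr (le_add_self.trans hx'))

theorem st_COD1 (M : Type u) [PModel M] (hM : IS1 (fun _ : ℕ => (∅ : Set M))) :
    ∃ bd : M → M, CodAPI M bd := by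
  have hb0 : Rec (fun _ : ℕ => (∅ : Set M)) (fun n : M => cd n (fun _ => True)) := by
    unfold cd lc
    refine Rec.pair Rec.id (Rec.pair ?_ (mm_rec hM))
    refine Rec.mu (R := fun (n : M) a => 0 < a ∧ ∀ x, x < n → True → md (mm n) x ∣ a) hM.base ?_ ?_
    · exact lc_rel_rec (n := fun n : M => n) (P := fun _ _ => True) hM hM.base Rec.id
        (RecP.const True)
    · intro n
      obtain ⟨a, ha, h⟩ := lc_exists hM n
      exact ⟨a, ha, fun x hx _ => h x hx⟩
  -- the bound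
  have hrel : RecP (fun _ : ℕ => (∅ : Set M))
      (fun z : M × M => ∀ k, k < z.1 + 1 → cd k (fun _ => True) < z.2) := by
    refine RecP.ball (R := fun (z : M × M) k => cd k (fun _ => True) < z.2) hM.coll1
      (PMap.id.fst.rec.add (Rec.const 1)) ?_
    exact RecP.lt (Rec.comp (F := fun n : M => cd n (fun _ => True)) hb0 PMap.id.snd.rec)
      PMap.id.fst.snd.rec
  have hex : ∀ n : M, ∃ b, ∀ k, k < n + 1 → cd k (fun _ => True) < b := by
    intro n
    obtain ⟨b, hb⟩ := hM.coll1 (fun z : M × M => z.2 = cd z.1 (fun _ => True))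
      hb0.toRec1 (n + 1) (fun x _ => ⟨cd x (fun _ => True), rfl⟩)
    refine ⟨b, fun k hk => ?_⟩
    obtain ⟨y, hy, hy2⟩ := hb k hk
    exact hy2 ▸ hy
  refine ⟨fun n => mu fun b => ∀ k, k < n + 1 → cd k (fun _ => True) < b, ?_⟩
  have hbd : ∀ n : M, ∀ k, k < n + 1 →
      cd k (fun _ => True) < mu fun b => ∀ k, k < n + 1 → cd k (fun _ => True) < b := fun n =>
    (mu_spec hM.base (RecP.comp (F := fun b : M => (n, b)) hrel ((Rec.const n).prodMk Rec.id))
      (hex n)).1
  have hspec : ∀ (A : ℕ → Set M), Base A → ∀ P : M → Prop, RecP A P → ∀ n,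
      (∀ x, el x (mk n P) ↔ x < n ∧ P x) ∧ mk n P ≤ cd n P := by
    intro A hA P hP n
    have h1 := mk_rel_rec (Γ := M) (n := fun _ => n) (P := fun _ x => P x) hA (Rec.const n)
      (hP.comp PMap.id.snd.rec)
    obtain ⟨h2, h3⟩ := mu_spec hA (RecP.comp (F := fun a : M => ((0 : M), a)) h1
      ((Rec.const 0).prodMk Rec.id)) ⟨cd n P, fun x => el_cd hM hA n hP x⟩
    refine ⟨h2, ?_⟩
    by_contra hc
    exact h3 _ (not_le.mp hc) (fun x => el_cd hM hA n hP x)
  exact
    { el_lt := fun x c h => el_lt' h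
      el_rec := el_rec'
      bd_rec := Rec.mu (R := fun (n : M) b => ∀ k, k < n + 1 → cd k (fun _ => True) < b) hM.base
        hrel hex
      bd_mono := by
        intro n n' hn
        by_contra hc
        have h3 := (mu_spec hM.base (RecP.comp (F := fun b : M => (n, b)) hrel
          ((Rec.const n).prodMk Rec.id)) (hex n)).2 _ (not_le.mp hc)
        exact h3 fun k hk => hbd n' k (lt_of_lt_of_le hk (by gcongr))
      mk_spec := fun A hA P hP n x => (hspec A hA P hP n).1 x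
      mk_lt := by
        intro A hA P hP n
        refine lt_of_le_of_lt ((hspec A hA P hP n).2.trans ?_) (hbd n n (lt_add_one' n))
        unfold cd
        exact pair_mono le_rfl (pair_mono (lc_mono hM hA n hP) le_rfl)
      mk_rec := by
        intro A hA Γ _ R n hR hn
        exact Rec.mu (R := fun g c => ∀ x, el x c ↔ x < n g ∧ R g x) hA
          (mk_rel_rec hA hn hR) (fun g => ⟨mk (n g) (R g), fun x => (hspec A hA (R g)
            (RecP.comp (F := fun x : M => (g, x)) hR ((Rec.const g).prodMk Rec.id)) (n g)).1 x⟩) }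

theorem st_COD : ST_COD.{u} := fun M _ hM => st_COD1 M hM.is1

end Pool.Agent.Helper70.BRT
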