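import Pool.Agent.Helper70.BRT.Nice

/-! # Coded finite sets: definitions and interface -/

namespace Pool.Agent.Helper70.BRT

universe u

variable {M : Type u} [PModel M]

/-- `el x c`: `x` is an element of the finite set with code `c`. -/
def el (x c : M) : Prop :=
  ∃ n a m q : M, c = pair n (pair a m) ∧ x < n ∧ a = q * (1 + (x + 1) * m)

/-- The least code of `{x < n : P x}`. -/
noncomputable def mk (n : M) (P : M → Prop) : M := mu fun c => ∀ x, el x c ↔ x < n ∧ P x

/-- The interface of the coding of finite sets.  `bd n` bounds the codes of the subsets of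
`{x : x < n}`. -/
structure CodAPI (M : Type u) [PModel M] (bd : M → M) : Prop where
  el_lt : ∀ x c : M, el x c → x < c
  el_rec : RecP (fun _ => (∅ : Set M)) (fun z : M × M => el z.1 z.2)
  bd_rec : Rec (fun _ => (∅ : Set M)) bd
  bd_mono : Monotone bd
  mk_spec : ∀ A : ℕ → Set M, Base A → ∀ P : M → Prop, RecP A P → ∀ n x,
    el x (mk n P) ↔ x < n ∧ P x
  mk_lt : ∀ A : ℕ → Set M, Base A → ∀ P : M → Prop, RecP A P → ∀ n, mk n P < bd n
  mk_rec : ∀ A : ℕ → Set M, Base A → ∀ (Γ : Type u) [Ctx M Γ] (R : Γ → M → Prop) (n : Γ → M),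
    RecP A (fun g : Γ × M => R g.1 g.2) → Rec A n → Rec A (fun g => mk (n g) (R g))

/-- The interface for `2^n` and for cardinalities of coded sets. -/
structure PrimAPI (M : Type u) [PModel M] (pw card : M → M) : Prop where
  pw_rec : Rec (fun _ => (∅ : Set M)) pw
  pw_zero : pw 0 = 1
  pw_succ : ∀ n, pw (n + 1) = pw n + pw n
  card_rec : Rec (fun _ => (∅ : Set M)) card
  card_empty : ∀ c, (∀ x, ¬ el x c) → card c = 0
  card_insert : ∀ c c' j, ¬ el j c → (∀ x, el x c' ↔ el x c ∨ x = j) → card c' = card c + 1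

theorem mk_congr {n : M} {P Q : M → Prop} (h : ∀ x, x < n → (P x ↔ Q x)) : mk n P = mk n Q := by
  unfold mk
  congr 1
  funext c
  refine propext (forall_congr' fun x => ?_)
  constructor
  · intro h1
    rw [h1]
    constructor
    · rintro ⟨h2, h3⟩
      exact ⟨h2, (h x h2).mp h3⟩
    · rintro ⟨h2, h3⟩
      exact ⟨h2, (h x h2).mpr h3⟩
  · intro h1
    rw [h1]
    constructor
    · rintro ⟨h2, h3⟩
      exact ⟨h2, (h x h2).mpr h3⟩
    · rintro ⟨h2, h3⟩
      exact ⟨h2, (h x h2).mp h3⟩

end Pool.Agent.Helper70.BRT
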