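import Pool.Agent.Helper70.BRT.Cod

/-! # The combinatorial notions (definitions) -/

namespace Pool.Agent.Helper70.BRT

universe u

variable {M : Type u} [PModel M]

/-- `c` and `c'` agree below `n`. -/
def Agree (n c c' : M) : Prop := ∀ x, x < n → (el x c ↔ el x c')

/-- The string `(n, c)` (that is the set `c ∩ [0,n)`) is homogeneous with colour `0`. -/
def Hom0 (f : M × M → Prop) (n c : M) : Prop :=
  ∀ x y, x < y → y < n → el x c → el y c → ¬ f (x, y)

/-- There is no `1`-homogeneous coded set with `l` or more elements. -/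
def NoClique (f : M × M → Prop) (card : M → M) (l : M) : Prop :=
  ∀ Q, (∀ x y, x < y → el x Q → el y Q → f (x, y)) → card Q < l

/-- `Φ ((e, n), c)` only depends on `c ∩ [0,n)`. -/
def Local (Φ : (M × M) × M → Prop) : Prop :=
  ∀ e n c c', Agree n c c' → Φ ((e, n), c) → Φ ((e, n), c')

/-- The events `e ≤ b` for the string `(n, c)`: for `e < b` the event `Φ e` happened, for `e = b`
the string has an element `≥ b`. -/
def Ev (Φ : (M × M) × M → Prop) (b e n c : M) : Prop :=
  (e < b ∧ ∃ m, m < n + 1 ∧ Φ ((e, m), c)) ∨ (e = b ∧ ∃ x, x < n ∧ b ≤ x ∧ el x c)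

/-- `g < g'` are consecutive elements of the coded set `S`. -/
def Cons2 (S g g' : M) : Prop := el g S ∧ el g' S ∧ g < g' ∧ ∀ z, z < g' → g < z → ¬ el z S

/-- The string `(n', c')` is `0`-homogeneous and extends `(n, c)` by elements of `R`. -/
def Ext (f : M × M → Prop) (n c n' c' : M) (R : M → Prop) : Prop :=
  n ≤ n' ∧ Agree n c c' ∧ (∀ x, x < n' → n ≤ x → el x c' → R x) ∧ Hom0 f n' c'

/-- `R ∩ [m,v)` is `(S, v)`-attainable (`m = max S`). -/
def Att (bd : M → M) (f : M × M → Prop) (Φ : (M × M) × M → Prop) (S m v : M) (R : M → Prop) :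
    Prop :=
  ∃ s, s < bd m ∧ Hom0 f m s ∧ (∀ y, y < v → m ≤ y → R y → ∀ x, x < m → el x s → ¬ f (x, y)) ∧
    ∀ n, n < v + 1 → ∀ t, t < bd v → Ext f m s n t R →
      ∀ g, g < m → ∀ g', g' < m + 1 → Cons2 S g g' →
        ∀ e, e < g + 1 → Ev Φ g e n t → Ev Φ g e g' t

/-- `P ∩ [m,v)` is a union of `N` attainable sets. -/
def Cov (bd : M → M) (f : M × M → Prop) (Φ : (M × M) × M → Prop) (S m v N : M) (P : M → Prop) :
    Prop :=
  ∃ C, C < bd (pair v N) ∧
    (∀ y, y < v → m ≤ y → P y → ∃ k, k < N ∧ el (pair y k) C) ∧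
    ∀ k, k < N → Att bd f Φ S m v (fun y => P y ∧ el (pair y k) C)

/-- `m` is the greatest element of `S`. -/
def IsMaxOf (S m : M) : Prop := el m S ∧ ∀ x, el x S → x ≤ m

/-- `S` is good (`m = max S`). -/
def Good (bd : M → M) (f : M × M → Prop) (Φ : (M × M) × M → Prop) (S m : M) : Prop :=
  ∀ v, m ≤ v → Cov bd f Φ S m v (m + 1) (fun _ => True)

/-- The set of good codes. -/
def GoodSet (bd : M → M) (f : M × M → Prop) (Φ : (M × M) × M → Prop) : Set M :=
  {S | ∀ m, IsMaxOf S m → Good bd f Φ S m}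

/-- Facts about cardinalities of coded sets. -/
structure CardAPI (M : Type u) [PModel M] (card : M → M) : Prop where
  congr : ∀ c c' : M, (∀ x, el x c ↔ el x c') → card c = card c'
  mono : ∀ c c' : M, (∀ x, el x c → el x c') → card c ≤ card c'
  strict : ∀ c c' j : M, (∀ x, el x c → el x c') → el j c' → ¬ el j c → card c < card c'
  le : ∀ c n : M, (∀ x, el x c → x < n) → card c ≤ n
  pos : ∀ c : M, 0 < card c → ∃ x, el x c
  split : ∀ c c₁ c₂ : M, (∀ x, el x c → el x c₁ ∨ el x c₂) → card c ≤ card c₁ + card c₂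
  remove : ∀ c c' j : M, (∀ x, el x c → x = j ∨ el x c') → card c ≤ card c' + 1
  pigeon : ∀ A : ℕ → Set M, Nice A → ∀ κ : M → M, Rec A κ → ∀ b m K : M, (b + 1) * m ≤ K →
    (∀ i, i < K → κ i ≤ b) → ∃ k, k ≤ b ∧ m ≤ card (mk K (fun i => κ i = k))

end Pool.Agent.Helper70.BRT
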