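import Pool.Agent.Helper70.BRT.Alg

/-! # Closure properties of the classes of definable relations and functions -/

namespace Pool.Agent.Helper70.BRT

universe u

variable {M : Type u} [PModel M] {A : ℕ → Set M}
variable {Γ Δ Θ : Type u} [Ctx M Γ] [Ctx M Δ] [Ctx M Θ]

/-! ## Substitution -/

/-- Substitution in terms. -/
def Tm.subst (σ : ℕ → Tm M) : Tm M → Tm M
  | .var i => σ i
  | .const c => .const c
  | .add s t => .add (s.subst σ) (t.subst σ)
  | .mul s t => .mul (s.subst σ) (t.subst σ)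

theorem Tm.eval_subst (σ : ℕ → Tm M) (t : Tm M) (v : ℕ → M) :
    (t.subst σ).eval v = t.eval (fun i => (σ i).eval v) := by
  induction t with
  | var i => rfl
  | const c => rfl
  | add s t hs ht => simp only [Tm.subst, Tm.eval, hs, ht]
  | mul s t hs ht => simp only [Tm.subst, Tm.eval, hs, ht]

/-- The substitution under a quantifier. -/
def liftSub (σ : ℕ → Tm M) : ℕ → Tm M
  | 0 => .var 0
  | i + 1 => (σ i).subst (fun j => .var (j + 1))

theorem eval_liftSub (σ : ℕ → Tm M) (x : M) (v : ℕ → M) :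
    (fun i => (liftSub σ i).eval (cons x v)) = cons x (fun i => (σ i).eval v) := by
  funext i
  cases i with
  | zero => rfl
  | succ i =>
    change ((σ i).subst (fun j => Tm.var (j + 1))).eval (cons x v) = (σ i).eval v
    rw [Tm.eval_subst]
    rfl

/-- Substitution in bounded formulas. -/
def Fm.subst : (ℕ → Tm M) → Fm M → Fm M
  | σ, .eq s t => .eq (s.subst σ) (t.subst σ)
  | σ, .lt s t => .lt (s.subst σ) (t.subst σ)
  | σ, .mem i t => .mem i (t.subst σ)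
  | σ, .neg φ => .neg (φ.subst σ)
  | σ, .and φ ψ => .and (φ.subst σ) (ψ.subst σ)
  | σ, .ball t φ => .ball (t.subst σ) (φ.subst (liftSub σ))

theorem Fm.eval_subst (φ : Fm M) : ∀ (σ : ℕ → Tm M) (v : ℕ → M),
    (φ.subst σ).eval A v ↔ φ.eval A (fun i => (σ i).eval v) := by
  induction φ with
  | eq s t => intro σ v; simp only [Fm.subst, Fm.eval, Tm.eval_subst]
  | lt s t => intro σ v; simp only [Fm.subst, Fm.eval, Tm.eval_subst]
  | mem i t => intro σ v; simp only [Fm.subst, Fm.eval, Tm.eval_subst]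
  | neg φ ih => intro σ v; simp only [Fm.subst, Fm.eval, ih]
  | and φ ψ ih1 ih2 => intro σ v; simp only [Fm.subst, Fm.eval, ih1, ih2]
  | ball t φ ih =>
    intro σ v
    simp only [Fm.subst, Fm.eval, Tm.eval_subst, ih, eval_liftSub]

/-! ## Environments -/

theorem env_prod (g : Γ) (d : Δ) :
    (env (g, d) : ℕ → M) = fun i => if i < Ctx.n M Δ then Ctx.pr i d else env g (i - Ctx.n M Δ) := by
  funext i
  change (if i < Ctx.n M Γ + Ctx.n M Δ then
      (if i < Ctx.n M Δ then (Ctx.pr i d : M) else Ctx.pr (i - Ctx.n M Δ) g) else 0) = _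
  by_cases h : i < Ctx.n M Δ
  · rw [if_pos h, if_pos h, if_pos (by omega)]
  · rw [if_neg h, if_neg h]
    unfold env
    by_cases h2 : i < Ctx.n M Γ + Ctx.n M Δ
    · rw [if_pos h2, if_pos (by omega)]
    · rw [if_neg h2, if_neg (by omega)]

theorem env_cons (g : Γ) (x : M) : (env (g, x) : ℕ → M) = cons x (env g) := by
  rw [env_prod]
  funext i
  cases i with
  | zero => rfl
  | succ i =>
    change (if i + 1 < 1 then x else env g (i + 1 - 1)) = env g i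
    rw [if_neg (by omega)]
    rfl

theorem env_self (x : M) : (env x : ℕ → M) = cons x (fun _ => 0) := by
  funext i
  cases i with
  | zero => rfl
  | succ i =>
    change (if i + 1 < 1 then x else 0) = 0
    rw [if_neg (by omega)]

/-! ## Polynomial functions -/

/-- Polynomial functions with parameters. -/
def Poly (F : Γ → M) : Prop := ∃ s : Tm M, ∀ g, F g = s.eval (env g)

/-- Polynomial maps between contexts. -/
def PMap (F : Γ → Δ) : Prop := ∀ i, i < Ctx.n M Δ → Poly (fun g => (Ctx.pr i (F g) : M))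

theorem Poly.const (c : M) : Poly (fun _ : Γ => c) := ⟨.const c, fun _ => rfl⟩

theorem Poly.add {F G : Γ → M} (hF : Poly F) (hG : Poly G) : Poly (fun g => F g + G g) := by
  obtain ⟨s, hs⟩ := hF
  obtain ⟨t, ht⟩ := hG
  exact ⟨.add s t, fun g => by simp only [Tm.eval, hs, ht]⟩

theorem Poly.mul {F G : Γ → M} (hF : Poly F) (hG : Poly G) : Poly (fun g => F g * G g) := by
  obtain ⟨s, hs⟩ := hF
  obtain ⟨t, ht⟩ := hG
  exact ⟨.mul s t, fun g => by simp only [Tm.eval, hs, ht]⟩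

theorem Poly.pair {F G : Γ → M} (hF : Poly F) (hG : Poly G) : Poly (fun g => pair (F g) (G g)) :=
  ((hF.add hG).mul (hF.add hG)).add hF

theorem poly_pr (i : ℕ) (hi : i < Ctx.n M Γ) : Poly (fun g : Γ => (Ctx.pr i g : M)) :=
  ⟨.var i, fun g => by
    change Ctx.pr i g = if i < Ctx.n M Γ then Ctx.pr i g else 0
    rw [if_pos hi]⟩

theorem PMap.sub {F : Γ → Δ} (hF : PMap (M := M) F) :
    ∃ σ : ℕ → Tm M, ∀ g, (fun i => (σ i).eval (env g)) = (env (F g) : ℕ → M) := by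
  choose s hs using hF
  refine ⟨fun i => if h : i < Ctx.n M Δ then s i h else .const 0, fun g => ?_⟩
  funext i
  unfold env
  by_cases h : i < Ctx.n M Δ
  · simp only [h, dite_true, if_true]
    exact (hs i h g).symm
  · simp only [h, dite_false, if_false]
    rfl

theorem Poly.comp {F : Δ → M} {G : Γ → Δ} (hF : Poly F) (hG : PMap (M := M) G) :
    Poly (fun g => F (G g)) := by
  obtain ⟨s, hs⟩ := hF
  obtain ⟨σ, hσ⟩ := hG.sub
  refine ⟨s.subst σ, fun g => ?_⟩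
  rw [Tm.eval_subst, hσ]
  exact hs (G g)

theorem PMap.const (d : Δ) : PMap (M := M) (fun _ : Γ => d) := fun _ _ => Poly.const _

theorem PMap.id : PMap (M := M) (fun g : Γ => g) := fun i hi => poly_pr i hi

theorem PMap.comp {F : Δ → Θ} {G : Γ → Δ} (hF : PMap (M := M) F) (hG : PMap (M := M) G) :
    PMap (M := M) (fun g => F (G g)) :=
  fun i hi => (hF i hi).comp hG

theorem PMap.fst {F : Γ → Δ × Θ} (hF : PMap (M := M) F) : PMap (M := M) (fun g => (F g).1) := by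
  intro i hi
  have h1 := hF (i + Ctx.n M Θ) (by change _ < Ctx.n M Δ + Ctx.n M Θ; omega)
  obtain ⟨s, hs⟩ := h1
  refine ⟨s, fun g => ?_⟩
  rw [← hs g]
  change _ = if i + Ctx.n M Θ < Ctx.n M Θ then (Ctx.pr (i + Ctx.n M Θ) (F g).2 : M)
    else Ctx.pr (i + Ctx.n M Θ - Ctx.n M Θ) (F g).1
  rw [if_neg (by omega), Nat.add_sub_cancel]

theorem PMap.snd {F : Γ → Δ × Θ} (hF : PMap (M := M) F) : PMap (M := M) (fun g => (F g).2) := by
  intro i hi
  have h1 := hF i (by change _ < Ctx.n M Δ + Ctx.n M Θ; omega)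
  obtain ⟨s, hs⟩ := h1
  refine ⟨s, fun g => ?_⟩
  rw [← hs g]
  change _ = if i < Ctx.n M Θ then (Ctx.pr i (F g).2 : M) else Ctx.pr (i - Ctx.n M Θ) (F g).1
  rw [if_pos hi]

theorem PMap.prodMk {F : Γ → Δ} {G : Γ → Θ} (hF : PMap (M := M) F) (hG : PMap (M := M) G) :
    PMap (M := M) (fun g => (F g, G g)) := by
  intro i hi
  by_cases h : i < Ctx.n M Θ
  · obtain ⟨s, hs⟩ := hG i h
    refine ⟨s, fun g => ?_⟩
    rw [← hs g]
    change (if i < Ctx.n M Θ then (Ctx.pr i (G g) : M) else Ctx.pr (i - Ctx.n M Θ) (F g)) = _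
    rw [if_pos h]
  · obtain ⟨s, hs⟩ := hF (i - Ctx.n M Θ) (by
      change _ < Ctx.n M Δ + Ctx.n M Θ at hi; omega)
    refine ⟨s, fun g => ?_⟩
    rw [← hs g]
    change (if i < Ctx.n M Θ then (Ctx.pr i (G g) : M) else Ctx.pr (i - Ctx.n M Θ) (F g)) = _
    rw [if_neg h]

theorem Poly.toPMap {F : Γ → M} (hF : Poly F) : PMap (M := M) F := fun _ _ => hF

theorem PMap.toPoly {F : Γ → M} (hF : PMap (M := M) F) : Poly F := hF 0 (by
  change 0 < 1; omega)

/-! ## `Δ₀` relations -/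

theorem D0.comp {R : Δ → Prop} {F : Γ → Δ} (hR : D0 A R) (hF : PMap (M := M) F) :
    D0 A (fun g => R (F g)) := by
  obtain ⟨φ, hφ⟩ := hR
  obtain ⟨σ, hσ⟩ := hF.sub
  refine ⟨φ.subst σ, fun g => ?_⟩
  rw [Fm.eval_subst, hσ]
  exact hφ (F g)

theorem D0.not {R : Γ → Prop} (hR : D0 A R) : D0 A (fun g => ¬ R g) := by
  obtain ⟨φ, hφ⟩ := hR
  exact ⟨.neg φ, fun g => by simp only [Fm.eval, hφ]⟩

theorem D0.and {R S : Γ → Prop} (hR : D0 A R) (hS : D0 A S) : D0 A (fun g => R g ∧ S g) := by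
  obtain ⟨φ, hφ⟩ := hR
  obtain ⟨ψ, hψ⟩ := hS
  exact ⟨.and φ ψ, fun g => by simp only [Fm.eval, hφ, hψ]⟩

theorem D0.congr {R S : Γ → Prop} (hR : D0 A R) (h : ∀ g, S g ↔ R g) : D0 A S := by
  obtain ⟨φ, hφ⟩ := hR
  exact ⟨φ, fun g => (h g).trans (hφ g)⟩

theorem D0.or {R S : Γ → Prop} (hR : D0 A R) (hS : D0 A S) : D0 A (fun g => R g ∨ S g) :=
  (hR.not.and hS.not).not.congr fun g => by tauto

theorem D0.imp {R S : Γ → Prop} (hR : D0 A R) (hS : D0 A S) : D0 A (fun g => R g → S g) :=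
  (hR.and hS.not).not.congr fun g => by tauto

theorem D0.iff {R S : Γ → Prop} (hR : D0 A R) (hS : D0 A S) : D0 A (fun g => R g ↔ S g) :=
  ((hR.imp hS).and (hS.imp hR)).congr fun g => by tauto

theorem D0.eq {F G : Γ → M} (hF : Poly F) (hG : Poly G) : D0 A (fun g => F g = G g) := by
  obtain ⟨s, hs⟩ := hF
  obtain ⟨t, ht⟩ := hG
  exact ⟨.eq s t, fun g => by simp only [Fm.eval, hs, ht]⟩

theorem D0.lt {F G : Γ → M} (hF : Poly F) (hG : Poly G) : D0 A (fun g => F g < G g) := by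
  obtain ⟨s, hs⟩ := hF
  obtain ⟨t, ht⟩ := hG
  exact ⟨.lt s t, fun g => by simp only [Fm.eval, hs, ht]⟩

theorem D0.le {F G : Γ → M} (hF : Poly F) (hG : Poly G) : D0 A (fun g => F g ≤ G g) :=
  (D0.lt hG hF).not.congr fun _ => not_lt.symm

theorem D0.mem (i : ℕ) {F : Γ → M} (hF : Poly F) : D0 A (fun g => F g ∈ A i) := by
  obtain ⟨s, hs⟩ := hF
  exact ⟨.mem i s, fun g => by simp only [Fm.eval, hs]⟩

theorem D0.const (p : Prop) : D0 A (fun _ : Γ => p) := by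
  by_cases h : p
  · exact (D0.eq (Poly.const (0 : M)) (Poly.const 0)).congr fun _ => by simp [h]
  · exact (D0.eq (Poly.const (0 : M)) (Poly.const 0)).not.congr fun _ => by simp [h]

theorem D0.ball {t : Γ → M} (ht : Poly t) {R : Γ → M → Prop}
    (hR : D0 A (fun g : Γ × M => R g.1 g.2)) : D0 A (fun g => ∀ x, x < t g → R g x) := by
  obtain ⟨s, hs⟩ := ht
  obtain ⟨φ, hφ⟩ := hR
  refine ⟨.ball s φ, fun g => ?_⟩
  simp only [Fm.eval, ← hs]
  refine forall_congr' fun x => forall_congr' fun _ => ?_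
  rw [← env_cons]
  exact hφ (g, x)

theorem D0.bex {t : Γ → M} (ht : Poly t) {R : Γ → M → Prop}
    (hR : D0 A (fun g : Γ × M => R g.1 g.2)) : D0 A (fun g => ∃ x, x < t g ∧ R g x) :=
  (D0.ball (R := fun g x => ¬ R g x) ht hR.not).not.congr fun g => by push Not; rfl

/-! ## `Σ₁` relations -/

theorem sig1_iff {R : Γ → Prop} :
    Sig1 A R ↔ ∃ Q : Γ × M → Prop, D0 A Q ∧ ∀ g, R g ↔ ∃ x, Q (g, x) := by
  constructor
  · rintro ⟨φ, hφ⟩
    refine ⟨fun g => φ.eval A (env g), ⟨φ, fun g => Iff.rfl⟩, fun g => ?_⟩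
    rw [hφ]
    simp only [env_cons]
  · rintro ⟨Q, ⟨φ, hφ⟩, hQ⟩
    refine ⟨φ, fun g => ?_⟩
    rw [hQ]
    refine exists_congr fun x => ?_
    rw [hφ, env_cons]

theorem Sig1.congr {R S : Γ → Prop} (hR : Sig1 A R) (h : ∀ g, S g ↔ R g) : Sig1 A S := by
  obtain ⟨φ, hφ⟩ := hR
  exact ⟨φ, fun g => (h g).trans (hφ g)⟩

theorem D0.sig1 {R : Γ → Prop} (hR : D0 A R) : Sig1 A R :=
  sig1_iff.mpr ⟨fun g => R g.1, hR.comp PMap.id.fst, fun g => by simp⟩

theorem D0.recP {R : Γ → Prop} (hR : D0 A R) : RecP A R := ⟨hR.sig1, hR.not.sig1⟩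

theorem Sig1.compP {R : Δ → Prop} {F : Γ → Δ} (hR : Sig1 A R) (hF : PMap (M := M) F) :
    Sig1 A (fun g => R (F g)) := by
  obtain ⟨Q, hQ, h⟩ := sig1_iff.mp hR
  exact sig1_iff.mpr ⟨fun g => Q (F g.1, g.2),
    hQ.comp ((hF.comp PMap.id.fst).prodMk PMap.id.snd), fun g => h (F g)⟩

theorem Sig1.ex {R : Γ → M → Prop} (hR : Sig1 A (fun g : Γ × M => R g.1 g.2)) :
    Sig1 A (fun g => ∃ x, R g x) := by
  obtain ⟨Q, hQ, h⟩ := sig1_iff.mp hR
  refine sig1_iff.mpr ⟨fun g => ∃ x, x < g.2 ∧ ∃ y, y < g.2 ∧ Q ((g.1, x), y), ?_, ?_⟩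
  · refine D0.bex (R := fun (g : Γ × M) x => ∃ y, y < g.2 ∧ Q ((g.1, x), y)) PMap.id.snd.toPoly ?_
    refine D0.bex (R := fun (g : (Γ × M) × M) y => Q ((g.1.1, g.2), y))
      PMap.id.fst.snd.toPoly ?_
    exact hQ.comp ((PMap.id.fst.fst.fst.prodMk PMap.id.fst.snd).prodMk PMap.id.snd)
  · intro g
    constructor
    · rintro ⟨x, hx⟩
      obtain ⟨y, hy⟩ := (h (g, x)).mp hx
      refine ⟨x + y + 1, x, ?_, y, ?_, hy⟩
      · exact lt_add_one_iff'.mpr le_self_add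
      · exact lt_add_one_iff'.mpr le_add_self
    · rintro ⟨z, x, -, y, -, hy⟩
      exact ⟨x, (h (g, x)).mpr ⟨y, hy⟩⟩

theorem Sig1.and {R S : Γ → Prop} (hR : Sig1 A R) (hS : Sig1 A S) :
    Sig1 A (fun g => R g ∧ S g) := by
  obtain ⟨Q, hQ, h⟩ := sig1_iff.mp hR
  obtain ⟨Q', hQ', h'⟩ := sig1_iff.mp hS
  have h1 : Sig1 A (fun g : Γ × M => ∃ y, Q g ∧ Q' (g.1, y)) :=
    sig1_iff.mpr ⟨fun g => Q g.1 ∧ Q' (g.1.1, g.2),
      (hQ.comp PMap.id.fst).and (hQ'.comp (PMap.id.fst.fst.prodMk PMap.id.snd)), fun g => Iff.rfl⟩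
  refine (Sig1.ex (R := fun g x => ∃ y, Q (g, x) ∧ Q' (g, y)) h1).congr fun g => ?_
  rw [h, h']
  constructor
  · rintro ⟨⟨x, hx⟩, ⟨y, hy⟩⟩
    exact ⟨x, y, hx, hy⟩
  · rintro ⟨x, y, hx, hy⟩
    exact ⟨⟨x, hx⟩, ⟨y, hy⟩⟩

theorem Sig1.or {R S : Γ → Prop} (hR : Sig1 A R) (hS : Sig1 A S) :
    Sig1 A (fun g => R g ∨ S g) := by
  obtain ⟨Q, hQ, h⟩ := sig1_iff.mp hR
  obtain ⟨Q', hQ', h'⟩ := sig1_iff.mp hS
  refine sig1_iff.mpr ⟨fun g => Q g ∨ Q' g, hQ.or hQ', fun g => ?_⟩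
  rw [h, h', exists_or]

/-- Bounded universal quantification, the bound being polynomial. -/
theorem Sig1.ballP (hA : Coll1 A) {t : Γ → M} (ht : Poly t) {R : Γ → M → Prop}
    (hR : Sig1 A (fun g : Γ × M => R g.1 g.2)) : Sig1 A (fun g => ∀ x, x < t g → R g x) := by
  obtain ⟨Q, hQ, h⟩ := sig1_iff.mp hR
  refine sig1_iff.mpr ⟨fun g => ∀ x, x < t g.1 → ∃ y, y < g.2 ∧ Q ((g.1, x), y), ?_, ?_⟩
  · refine D0.ball (R := fun (g : Γ × M) x => ∃ y, y < g.2 ∧ Q ((g.1, x), y))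
      (ht.comp PMap.id.fst) ?_
    refine D0.bex (R := fun (g : (Γ × M) × M) y => Q ((g.1.1, g.2), y))
      PMap.id.fst.snd.toPoly ?_
    exact hQ.comp ((PMap.id.fst.fst.fst.prodMk PMap.id.fst.snd).prodMk PMap.id.snd)
  · intro g
    constructor
    · intro h1
      have h2 : Sig1 A (fun z : M × M => Q ((g, z.1), z.2)) :=
        (hQ.comp (((PMap.const g).prodMk PMap.id.fst).prodMk PMap.id.snd)).sig1
      exact hA _ h2 (t g) fun x hx => (h (g, x)).mp (h1 x hx)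
    · rintro ⟨b, hb⟩ x hx
      obtain ⟨y, -, hy⟩ := hb x hx
      exact (h (g, x)).mpr ⟨y, hy⟩

end Pool.Agent.Helper70.BRT
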