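import Mathlib

/-!
# Bounded Ramsey's theorem for pairs: basic definitions

`PModel M`: `M` is a model of `P⁻` (a discretely ordered commutative semiring).
Syntax: terms `Tm M`, bounded formulas `Fm M` with constants from `M` (de Bruijn number variables,
oracles indexed by `ℕ`).  Contexts `Ctx M Γ` and the classes `D0`, `Sig1`, `Pi1`, `RecP`, `Rec` of
relations and functions definable with parameters over the structure `(M, A)`, `A : ℕ → Set M`.
-/

namespace Pool.Agent.Helper70.BRT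

universe u

/-- A discretely ordered commutative semiring (model of `P⁻`). -/
class PModel (M : Type u) extends CommSemiring M, LinearOrder M where
  add_lt_add_right'' : ∀ a b c : M, a < b → a + c < b + c
  mul_lt_mul_right'' : ∀ a b c : M, a < b → 0 < c → a * c < b * c
  exists_add'' : ∀ a b : M, a ≤ b → ∃ c, a + c = b
  zero_le'' : ∀ a : M, 0 ≤ a
  zero_lt_one'' : (0 : M) < 1
  discrete'' : ∀ a : M, 0 < a → 1 ≤ a

/-- `cons x v` is the sequence `x, v 0, v 1, …`. -/
def cons {M : Type u} (x : M) (v : ℕ → M) : ℕ → M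
  | 0 => x
  | n + 1 => v n

@[simp] theorem cons_zero {M : Type u} (x : M) (v : ℕ → M) : cons x v 0 = x := rfl
@[simp] theorem cons_succ {M : Type u} (x : M) (v : ℕ → M) (n : ℕ) : cons x v (n + 1) = v n := rfl

/-- Terms with constants from `M`. -/
inductive Tm (M : Type u) : Type u
  | var (i : ℕ)
  | const (c : M)
  | add (s t : Tm M)
  | mul (s t : Tm M)
  deriving Encodable

/-- The value of a term. -/
def Tm.eval {M : Type u} [Add M] [Mul M] (v : ℕ → M) : Tm M → M
  | .var i => v i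
  | .const c => c
  | .add s t => s.eval v + t.eval v
  | .mul s t => s.eval v * t.eval v

/-- Bounded formulas; `ball t φ` is `∀ x < t, φ` (the variable `x` has index `0` in `φ`). -/
inductive Fm (M : Type u) : Type u
  | eq (s t : Tm M)
  | lt (s t : Tm M)
  | mem (i : ℕ) (t : Tm M)
  | neg (φ : Fm M)
  | and (φ ψ : Fm M)
  | ball (t : Tm M) (φ : Fm M)
  deriving Encodable

/-- Satisfaction of a bounded formula in `(M, A)` under the assignment `v`. -/
def Fm.eval {M : Type u} [Add M] [Mul M] [LT M] (A : ℕ → Set M) : Fm M → (ℕ → M) → Prop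
  | .eq s t, v => s.eval v = t.eval v
  | .lt s t, v => s.eval v < t.eval v
  | .mem i t, v => t.eval v ∈ A i
  | .neg φ, v => ¬ φ.eval A v
  | .and φ ψ, v => φ.eval A v ∧ ψ.eval A v
  | .ball t φ, v => ∀ x : M, x < t.eval v → φ.eval A (cons x v)

/-- Contexts: types whose elements are finite tuples of elements of `M`. -/
class Ctx (M : Type u) (Γ : Type u) where
  /-- number of entries -/
  n : ℕ
  /-- the entries (only the indices `< n` matter) -/
  pr : ℕ → Γ → M

instance ctxSelf (M : Type u) : Ctx M M := ⟨1, fun _ x => x⟩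

instance ctxUnit (M : Type u) [Zero M] : Ctx M PUnit.{u + 1} := ⟨0, fun _ _ => 0⟩

instance ctxProd (M : Type u) (Γ Δ : Type u) [Ctx M Γ] [Ctx M Δ] : Ctx M (Γ × Δ) :=
  ⟨Ctx.n M Γ + Ctx.n M Δ, fun i g => if i < Ctx.n M Δ then Ctx.pr i g.2 else Ctx.pr (i - Ctx.n M Δ) g.1⟩

section

variable {M : Type u} [PModel M]

/-- The environment of `g`: the entries of `g`, then zeros. -/
def env {Γ : Type u} [Ctx M Γ] (g : Γ) : ℕ → M :=
  fun i => if i < Ctx.n M Γ then Ctx.pr i g else 0

/-- `Δ₀(A)` relations, with parameters. -/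
def D0 (A : ℕ → Set M) {Γ : Type u} [Ctx M Γ] (R : Γ → Prop) : Prop :=
  ∃ φ : Fm M, ∀ g, R g ↔ φ.eval A (env g)

/-- `Σ₁(A)` relations, with parameters. -/
def Sig1 (A : ℕ → Set M) {Γ : Type u} [Ctx M Γ] (R : Γ → Prop) : Prop :=
  ∃ φ : Fm M, ∀ g, R g ↔ ∃ x : M, φ.eval A (cons x (env g))

/-- `Π₁(A)` relations, with parameters. -/
def Pi1 (A : ℕ → Set M) {Γ : Type u} [Ctx M Γ] (R : Γ → Prop) : Prop :=
  Sig1 A (fun g => ¬ R g)

/-- `Δ₁(A)` relations, with parameters. -/
def RecP (A : ℕ → Set M) {Γ : Type u} [Ctx M Γ] (R : Γ → Prop) : Prop :=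
  Sig1 A R ∧ Sig1 A (fun g => ¬ R g)

/-- Functions into `M` with `Σ₁(A)` graph. -/
def Rec1 (A : ℕ → Set M) {Γ : Type u} [Ctx M Γ] (F : Γ → M) : Prop :=
  Sig1 A (fun g : Γ × M => g.2 = F g.1)

/-- Functions into a context all of whose components have `Σ₁(A)` graph. -/
def Rec (A : ℕ → Set M) {Γ Δ : Type u} [Ctx M Γ] [Ctx M Δ] (F : Γ → Δ) : Prop :=
  ∀ i, i < Ctx.n M Δ → Rec1 A (fun g => (Ctx.pr i (F g) : M))

/-- `Σ₁` collection for `(M, A)`. -/
def Coll1 (A : ℕ → Set M) : Prop :=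
  ∀ R : M × M → Prop, Sig1 A R → ∀ a, (∀ x < a, ∃ y, R (x, y)) → ∃ b, ∀ x < a, ∃ y < b, R (x, y)

/-- `Δ₁` induction and `Σ₁` collection for `(M, A)`. -/
structure Base (A : ℕ → Set M) : Prop where
  ind : ∀ P : M → Prop, RecP A P → P 0 → (∀ x, P x → P (x + 1)) → ∀ x, P x
  coll : Coll1 A

/-- `Σ₁` induction and `Π₁` collection (that is `Σ₂` collection) for `(M, A)`. -/
structure Nice (A : ℕ → Set M) : Prop where
  ind : ∀ P : M → Prop, Sig1 A P → P 0 → (∀ x, P x → P (x + 1)) → ∀ x, P x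
  coll : ∀ R : M × M → Prop, Pi1 A R → ∀ a, (∀ x < a, ∃ y, R (x, y)) → ∃ b, ∀ x < a, ∃ y < b, R (x, y)

end

end Pool.Agent.Helper70.BRT
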