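import Pool.Agent.Helper70.BRT.REC

/-! # Exponentiation and cardinality -/

namespace Pool.Agent.Helper70.BRT

universe u

theorem Rec.ite' {M : Type u} [PModel M] {A : ℕ → Set M} {Γ : Type u} [Ctx M Γ] {P : Γ → Prop}
    [inst : DecidablePred P] (hP : RecP A P) {F G : Γ → M} (hF : Rec A F) (hG : Rec A G) :
    Rec A (fun g => if P g then F g else G g) := by
  have h1 := Rec.ite hP hF hG
  have h2 : inst = fun g => Classical.propDecidable (P g) := Subsingleton.elim _ _
  subst h2
  exact h1

theorem st_PRIM1 (M : Type u) [PModel M] (hM : IS1 (fun _ : ℕ => (∅ : Set M)))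
    (hC0 : ∃ bd : M → M, CodAPI M bd) : ∃ pw card : M → M, PrimAPI M pw card := by
  classical
  obtain ⟨bd, hC⟩ := hC0
  obtain ⟨P, hP, hP0, hP1⟩ := st_REC1 M _ hM ⟨bd, hC⟩ M (fun _ => (1 : M)) (fun z => z.2 + z.2)
    (Rec.const 1) (Rec.id.snd.add Rec.id.snd)
  obtain ⟨F, hF, hF0, hF1⟩ := st_REC1 M _ hM ⟨bd, hC⟩ M (fun _ => (0 : M))
    (fun z => if el z.1.2 z.1.1 then z.2 + 1 else z.2)
    (Rec.const 0) (Rec.ite (hC.el_rec.comp (Rec.id.fst.snd.prodMk Rec.id.fst.fst))
      (Rec.id.snd.add (Rec.const 1)) Rec.id.snd)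
  have stab : ∀ c m : M, (∀ x, el x c → x < m) → ∀ k, F (c, m + k) = F (c, m) := by
    intro c m h
    refine hM.base.ind _ ?_ ?_ ?_
    · exact RecP.eq (hF.comp ((Rec.const c).prodMk ((Rec.const m).add Rec.id))) (Rec.const _)
    · rw [add_zero]
    · intro k hk
      rw [← add_assoc, hF1, if_neg, hk]
      intro h1
      exact absurd (h _ h1) (not_lt.mpr le_self_add)
  refine ⟨fun n => P (0, n), fun c => F (c, c), ?_, hP0 0, fun n => hP1 0 n, ?_, ?_, ?_⟩
  · exact hP.comp ((Rec.const 0).prodMk Rec.id)
  · exact hF.comp (Rec.id.prodMk Rec.id)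
  · intro c hc
    have : ∀ n, F (c, n) = 0 := by
      refine hM.base.ind _ ?_ (hF0 c) ?_
      · exact RecP.eq (hF.comp ((Rec.const c).prodMk Rec.id)) (Rec.const 0)
      · intro n hn
        rw [hF1, if_neg (hc n)]
        exact hn
    exact this c
  · intro c c' j hj hc'
    have key : ∀ n, F (c', n) = F (c, n) + (if j < n then 1 else 0) := by
      refine hM.base.ind _ ?_ ?_ ?_
      · refine RecP.eq (hF.comp ((Rec.const c').prodMk Rec.id))
          ((hF.comp ((Rec.const c).prodMk Rec.id)).add ?_)
        exact Rec.ite' (RecP.lt (Rec.const j) Rec.id) (Rec.const 1) (Rec.const 0)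
      · rw [hF0, hF0, if_neg (not_lt_zero'' j), add_zero]
      · intro n hn
        rw [hF1, hF1]
        simp only
        rw [hn]
        rcases lt_trichotomy j n with h1 | h1 | h1
        · have h2 : el n c' ↔ el n c := by
            rw [hc']
            constructor
            · rintro (h | h)
              · exact h
              · exact absurd h h1.ne'
            · exact Or.inl
          rw [if_pos h1, if_pos (h1.trans (lt_add_one' n))]
          by_cases h3 : el n c
          · rw [if_pos h3, if_pos (h2.mpr h3)]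
          · rw [if_neg h3, if_neg (fun h => h3 (h2.mp h))]
        · subst h1
          rw [if_neg (lt_irrefl j), if_pos (lt_add_one' j), if_neg hj, if_pos ((hc' j).mpr (Or.inr rfl)),
            add_zero]
        · have h2 : el n c' ↔ el n c := by
            rw [hc']
            constructor
            · rintro (h | h)
              · exact h
              · exact absurd h h1.ne
            · exact Or.inl
          rw [if_neg (not_lt.mpr h1.le), if_neg (not_lt.mpr (add_one_le_of_lt h1))]
          by_cases h3 : el n c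
          · rw [if_pos h3, if_pos (h2.mpr h3), add_zero, add_zero]
          · rw [if_neg h3, if_neg (fun h => h3 (h2.mp h))]
    have hjc : j < c' := hC.el_lt _ _ ((hc' j).mpr (Or.inr rfl))
    have h1 := stab c c (fun x hx => hC.el_lt _ _ hx) c'
    have h2 := stab c' c' (fun x hx => hC.el_lt _ _ hx) c
    change F (c', c') = F (c, c) + 1
    rw [← h1, ← h2, key, if_pos (hjc.trans_le le_self_add), add_comm c' c]

theorem st_PRIM : ST_PRIM.{u} := fun M _ hM hC => st_PRIM1 M hM.is1 hC

end Pool.Agent.Helper70.BRT
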