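import Pool.Agent.Helper70.BRT.COD
import Pool.Agent.Helper70.BRT.PRIM
import Pool.Agent.Helper70.BRT.CARD
import Pool.Agent.Helper12.BRT.MOD
import Pool.Agent.Helper18.BRT.HIRST
import Pool.Agent.Helper18.BRT.SND
import Pool.Agent.Helper20.BRT.UNIV
import Pool.Agent.Helper27.BRT.ITER
import Pool.Agent.Helper27.BRT.PATH
import Pool.Agent.Helper37.BRT.CORE
import Pool.Agent.Helper41.BRT.FIN
import Pool.Agent.Helper41.BRT.GREEDY
import Pool.Agent.Helper53.BRT.LS
import Pool.Agent.Helper53.BRT.SUPP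
import Pool.Agent.Helper56.BRT.DEFN
import Pool.Agent.Helper59.BRT.ONE
import Pool.Agent.Helper90.BRT.PMOD
import Pool.Agent.Helper90.BRT.UPD

/-! # Assembly -/

namespace Pool.Agent.Helper70.BRT

universe u

theorem final : BRTStmt.FINAL.{u} := by
  have hUNIV : ST_UNIV.{u} := st_UNIV
  have hPATH : ST_PATH.{u} := st_PATH st_OR st_OS
  have hUPD : ST_UPD.{u} := st_UPD st_OR st_OS
  have hONE : ST_ONE.{u} := st_ONE st_REC st_GREEDY
  have hCORE : ST_CORE.{u} := st_CORE hUNIV hUPD hPATH st_DEFN hONE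
  exact st_FIN st_COD st_PRIM st_CARD (st_ITER hCORE) st_PMOD st_MOD st_SND st_LS st_SUPP
    (st_HIRST st_PMOD)

end Pool.Agent.Helper70.BRT
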