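import Pool.Agent.Helper70.BRT.RecDef

/-! # Consequences of `Σ₁` induction and `Π₁` collection -/

namespace Pool.Agent.Helper70.BRT

universe u

variable {M : Type u} [PModel M] {A : ℕ → Set M}
variable {Γ Δ : Type u} [Ctx M Γ] [Ctx M Δ]

theorem Pi1.congr {R S : Γ → Prop} (hR : Pi1 A R) (h : ∀ g, S g ↔ R g) : Pi1 A S :=
  Sig1.congr hR fun g => not_congr (h g)

theorem RecP.pi1 {R : Γ → Prop} (hR : RecP A R) : Pi1 A R := hR.2

theorem RecP.sig1 {R : Γ → Prop} (hR : RecP A R) : Sig1 A R := hR.1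

theorem Pi1.and {R S : Γ → Prop} (hR : Pi1 A R) (hS : Pi1 A S) : Pi1 A (fun g => R g ∧ S g) :=
  Sig1.congr (Sig1.or hR hS) fun _ => not_and_or

theorem Pi1.or {R S : Γ → Prop} (hR : Pi1 A R) (hS : Pi1 A S) : Pi1 A (fun g => R g ∨ S g) :=
  Sig1.congr (Sig1.and hR hS) fun _ => not_or

theorem Pi1.comp {R : Δ → Prop} {F : Γ → Δ} (hR : Pi1 A R) (hF : Rec A F) :
    Pi1 A (fun g => R (F g)) := Sig1.comp (R := fun d => ¬ R d) hR hF

theorem Pi1.all {R : Γ → M → Prop} (hR : Pi1 A (fun g : Γ × M => R g.1 g.2)) :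
    Pi1 A (fun g => ∀ x, R g x) :=
  Sig1.congr (Sig1.ex (R := fun g x => ¬ R g x) hR) fun _ => not_forall

theorem Pi1.ball {t : Γ → M} (ht : Rec A t) {R : Γ → M → Prop}
    (hR : Pi1 A (fun g : Γ × M => R g.1 g.2)) : Pi1 A (fun g => ∀ x, x < t g → R g x) :=
  Sig1.congr (Sig1.bex ht (R := fun g x => ¬ R g x) hR) fun g => by push Not; rfl

theorem sig1_or_pi1 {R S : Γ → Prop} (hR : Sig1 A R) (hS : Pi1 A S) :
    Pi1 A (fun g => R g → S g) := by
  refine Sig1.congr (Sig1.and hR hS) fun g => ?_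
  tauto

theorem Nice.coll1 (hA : Nice A) : Coll1 A := by
  intro R hR a h
  obtain ⟨Q, hQ, hRQ⟩ := sig1_iff.mp hR
  have h1 : Pi1 A (fun z : M × M => ∃ y, y < z.2 ∧ ∃ w, w < z.2 ∧ Q ((z.1, y), w)) := by
    refine RecP.pi1 (D0.recP ?_)
    refine D0.bex (R := fun (z : M × M) y => ∃ w, w < z.2 ∧ Q ((z.1, y), w)) PMap.id.snd.toPoly ?_
    refine D0.bex (R := fun (g : (M × M) × M) w => Q ((g.1.1, g.2), w)) PMap.id.fst.snd.toPoly ?_
    exact hQ.comp ((PMap.id.fst.fst.fst.prodMk PMap.id.fst.snd).prodMk PMap.id.snd)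
  obtain ⟨b, hb⟩ := hA.coll _ h1 a (by
    intro x hx
    obtain ⟨y, hy⟩ := h x hx
    obtain ⟨w, hw⟩ := (hRQ (x, y)).mp hy
    exact ⟨y + w + 1, y, lt_add_one_iff'.mpr le_self_add, w, lt_add_one_iff'.mpr le_add_self, hw⟩)
  refine ⟨b, fun x hx => ?_⟩
  obtain ⟨z, hz, y, hy, w, -, hw⟩ := hb x hx
  exact ⟨y, hy.trans hz, (hRQ (x, y)).mpr ⟨w, hw⟩⟩

theorem Nice.base (hA : Nice A) : Base A := ⟨fun P hP => hA.ind P hP.1, hA.coll1⟩

/-- `Σ₁` least number principle and `Π₁` induction. -/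
theorem Nice.indPi (hA : Nice A) {P : M → Prop} (hP : Pi1 A P) (h0 : P 0)
    (hs : ∀ x, P x → P (x + 1)) : ∀ x, P x := by
  intro a
  by_contra ha
  -- induction on `x` for `∃ y, x + y = a ∧ ¬ P y`
  have h1 : ∀ x, (x ≤ a → ∃ y, x + y = a ∧ ¬ P y) := by
    refine hA.ind _ ?_ ?_ ?_
    · have h2 : Sig1 A (fun x : M => a < x ∨ ∃ y, x + y = a ∧ ¬ P y) := by
        refine (D0.lt (Poly.const a) PMap.id.toPoly).sig1.or ?_
        refine Sig1.ex (R := fun x y => x + y = a ∧ ¬ P y) ?_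
        exact ((D0.eq (PMap.id.fst.toPoly.add PMap.id.snd.toPoly) (Poly.const a)).sig1).and
          (Sig1.comp (R := fun y => ¬ P y) hP PMap.id.snd.rec)
      refine h2.congr fun x => ?_
      constructor
      · intro h
        by_cases hx : x ≤ a
        · exact Or.inr (h hx)
        · exact Or.inl (not_le.mp hx)
      · rintro (h | h) hx
        · exact absurd hx (not_le.mpr h)
        · exact h
    · intro _
      exact ⟨a, zero_add a, ha⟩
    · intro x hx hxa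
      obtain ⟨y, hy, hPy⟩ := hx ((lt_add_one' x).le.trans hxa)
      have hy0 : y ≠ 0 := by
        rintro rfl
        exact hPy h0
      obtain ⟨z, rfl⟩ := exists_pred hy0
      refine ⟨z, ?_, fun hz => hPy (hs z hz)⟩
      rw [← hy]
      ring
  obtain ⟨y, hy, hPy⟩ := h1 a le_rfl
  have : y = 0 := by
    have h2 : a + y = a + 0 := by rw [hy, add_zero]
    exact add_left_cancel h2
  rw [this] at hPy
  exact hPy h0

/-- A bounded part of a `Σ₁` set is `Δ₁`. -/
theorem Nice.strong (hA : Nice A) {P : M → Prop} (hP : Sig1 A P) (n : M) :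
    RecP A (fun x => x < n ∧ P x) := by
  obtain ⟨Q, hQ, hPQ⟩ := sig1_iff.mp hP
  have h1 : Pi1 A (fun z : M × M => P z.1 → ∃ y, y < z.2 ∧ Q (z.1, y)) := by
    refine sig1_or_pi1 (hP.compP PMap.id.fst) (RecP.pi1 (D0.recP ?_))
    refine D0.bex (R := fun (z : M × M) y => Q (z.1, y)) PMap.id.snd.toPoly ?_
    exact hQ.comp (PMap.id.fst.fst.prodMk PMap.id.snd)
  obtain ⟨b, hb⟩ := hA.coll _ h1 n (by
    intro x _
    by_cases hx : P x
    · obtain ⟨y, hy⟩ := (hPQ x).mp hx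
      exact ⟨y + 1, fun _ => ⟨y, lt_add_one' y, hy⟩⟩
    · exact ⟨0, fun h => absurd h hx⟩)
  have h2 : D0 A (fun x : M => x < n ∧ ∃ y, y < b ∧ Q (x, y)) := by
    refine (D0.lt PMap.id.toPoly (Poly.const n)).and ?_
    exact D0.bex (R := fun (x : M) y => Q (x, y)) (Poly.const b) (hQ.comp PMap.id)
  refine h2.recP.congr fun x => ?_
  constructor
  · rintro ⟨hx, hPx⟩
    obtain ⟨z, hz, hz2⟩ := hb x hx
    obtain ⟨y, hy, hQy⟩ := hz2 hPx
    exact ⟨hx, y, hy.trans hz, hQy⟩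
  · rintro ⟨hx, y, -, hQy⟩
    exact ⟨hx, (hPQ x).mpr ⟨y, hQy⟩⟩

/-! ## Changing the oracles -/

/-- Removing the oracles from a formula. -/
def Fm.strip : Fm M → Fm M
  | .eq s t => .eq s t
  | .lt s t => .lt s t
  | .mem _ _ => .lt (.const 0) (.const 0)
  | .neg φ => .neg φ.strip
  | .and φ ψ => .and φ.strip ψ.strip
  | .ball t φ => .ball t φ.strip

theorem Fm.eval_strip (φ : Fm M) (B : ℕ → Set M) : ∀ v : ℕ → M,
    φ.strip.eval B v ↔ φ.eval (fun _ => (∅ : Set M)) v := by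
  induction φ with
  | eq s t => intro v; rfl
  | lt s t => intro v; rfl
  | mem i t =>
    intro v
    simp only [Fm.strip, Fm.eval, Tm.eval, lt_irrefl, Set.mem_empty_iff_false]
  | neg φ ih => intro v; simp only [Fm.strip, Fm.eval, ih]
  | and φ ψ ih1 ih2 => intro v; simp only [Fm.strip, Fm.eval, ih1, ih2]
  | ball t φ ih => intro v; simp only [Fm.strip, Fm.eval, ih]

theorem Sig1.of_pure {R : Γ → Prop} (hR : Sig1 (fun _ => (∅ : Set M)) R) (B : ℕ → Set M) :
    Sig1 B R := by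
  obtain ⟨φ, hφ⟩ := hR
  exact ⟨φ.strip, fun g => by simp only [Fm.eval_strip]; exact hφ g⟩

theorem RecP.of_pure {R : Γ → Prop} (hR : RecP (fun _ => (∅ : Set M)) R) (B : ℕ → Set M) :
    RecP B R := ⟨hR.1.of_pure B, hR.2.of_pure B⟩

theorem Rec.of_pure {F : Γ → Δ} (hF : Rec (fun _ => (∅ : Set M)) F) (B : ℕ → Set M) :
    Rec B F := fun i hi => (hF i hi).of_pure B

/-- Replacing the empty oracle number `j` by `False`. -/
def Fm.drop (j : ℕ) : Fm M → Fm M
  | .eq s t => .eq s t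
  | .lt s t => .lt s t
  | .mem i t => if i = j then .lt (.const 0) (.const 0) else .mem i t
  | .neg φ => .neg (φ.drop j)
  | .and φ ψ => .and (φ.drop j) (ψ.drop j)
  | .ball t φ => .ball t (φ.drop j)

theorem Fm.eval_drop (φ : Fm M) {j : ℕ} (hj : A j = ∅) (H : Set M) : ∀ v : ℕ → M,
    (φ.drop j).eval (Function.update A j H) v ↔ φ.eval A v := by
  induction φ with
  | eq s t => intro v; rfl
  | lt s t => intro v; rfl
  | mem i t =>
    intro v
    by_cases hi : i = j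
    · simp only [Fm.drop, hi, if_true, Fm.eval, Tm.eval, lt_irrefl, hj, Set.mem_empty_iff_false]
    · simp only [Fm.drop, hi, if_false, Fm.eval, Function.update_of_ne hi]
  | neg φ ih => intro v; simp only [Fm.drop, Fm.eval, ih]
  | and φ ψ ih1 ih2 => intro v; simp only [Fm.drop, Fm.eval, ih1, ih2]
  | ball t φ ih => intro v; simp only [Fm.drop, Fm.eval, ih]

theorem Sig1.upd {R : Γ → Prop} (hR : Sig1 A R) {j : ℕ} (hj : A j = ∅) (H : Set M) :
    Sig1 (Function.update A j H) R := by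
  obtain ⟨φ, hφ⟩ := hR
  exact ⟨φ.drop j, fun g => by simp only [Fm.eval_drop φ hj]; exact hφ g⟩

theorem RecP.upd {R : Γ → Prop} (hR : RecP A R) {j : ℕ} (hj : A j = ∅) (H : Set M) :
    RecP (Function.update A j H) R := ⟨hR.1.upd hj H, hR.2.upd hj H⟩

theorem Rec.upd {F : Γ → Δ} (hF : Rec A F) {j : ℕ} (hj : A j = ∅) (H : Set M) :
    Rec (Function.update A j H) F := fun i hi => (hF i hi).upd hj H

/-- Pure `Σ₁` induction follows from `Σ₁(A)` induction. -/
theorem Nice.pure (hA : Nice A) : Nice (fun _ : ℕ => (∅ : Set M)) :=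
  ⟨fun P hP => hA.ind P (hP.of_pure A), fun R hR => hA.coll R (Sig1.of_pure hR A)⟩

end Pool.Agent.Helper70.BRT
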