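import Pool.Agent.Helper70.BRT.Spec
import Pool.Agent.Helper18.BRT.IS1

/-! # Primitive recursion -/

namespace Pool.Agent.Helper70.BRT

universe u

variable {M : Type u} [PModel M] {A : ℕ → Set M} {Γ : Type u} [Ctx M Γ]

/-- `c` codes a set of pairs `⟨i, y⟩`, `i ≤ n`, each of which is a value of the recursion or has a
predecessor in `c`. -/
def RecW (g0 : Γ → M) (h : (Γ × M) × M → M) (g : Γ) (n c : M) : Prop :=
  ∀ i, i < c → ∀ y, y < c → (el (pair i y) c → i ≤ n ∧ ((i = 0 ∧ y = g0 g) ∨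
    ∃ k, k < c ∧ ∃ z, z < c ∧ (i = k + 1 ∧ el (pair k z) c ∧ y = h ((g, k), z))))

/-- The graph of the function defined by recursion. -/
def RecG (g0 : Γ → M) (h : (Γ × M) × M → M) (g : Γ) (n y : M) : Prop :=
  ∃ c, RecW g0 h g n c ∧ el (pair n y) c

theorem recW_rec (hA : IS1 A) {bd : M → M} (hC : CodAPI M bd) {g0 : Γ → M}
    {h : (Γ × M) × M → M} (hg0 : Rec A g0) (hh : Rec A h) :
    RecP A (fun z : (Γ × M) × M => RecW g0 h z.1.1 z.1.2 z.2) := by
  have el_rec : RecP A (fun z : M × M => el z.1 z.2) := hC.el_rec.of_pure A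
  unfold RecW
  refine RecP.ball hA.coll1 Rec.id.snd (R := fun (z : (Γ × M) × M) i => ∀ y, y < z.2 →
    (el (pair i y) z.2 → i ≤ z.1.2 ∧ ((i = 0 ∧ y = g0 z.1.1) ∨
    ∃ k, k < z.2 ∧ ∃ w, w < z.2 ∧ (i = k + 1 ∧ el (pair k w) z.2 ∧ y = h ((z.1.1, k), w))))) ?_
  refine RecP.ball hA.coll1 Rec.id.fst.snd (R := fun (z : ((Γ × M) × M) × M) y =>
    (el (pair z.2 y) z.1.2 → z.2 ≤ z.1.1.2 ∧ ((z.2 = 0 ∧ y = g0 z.1.1.1) ∨
    ∃ k, k < z.1.2 ∧ ∃ w, w < z.1.2 ∧
      (z.2 = k + 1 ∧ el (pair k w) z.1.2 ∧ y = h ((z.1.1.1, k), w))))) ?_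
  refine RecP.imp ?_ (RecP.and ?_ (RecP.or (RecP.and ?_ ?_) ?_))
  · exact el_rec.comp ((Rec.pair Rec.id.fst.snd Rec.id.snd).prodMk Rec.id.fst.fst.snd)
  · exact RecP.le Rec.id.fst.snd Rec.id.fst.fst.fst.snd
  · exact RecP.eq Rec.id.fst.snd (Rec.const 0)
  · exact RecP.eq Rec.id.snd (hg0.comp Rec.id.fst.fst.fst.fst)
  · refine RecP.bex hA.coll1 Rec.id.fst.fst.snd (R := fun (z : (((Γ × M) × M) × M) × M) k =>
      ∃ w, w < z.1.1.2 ∧ (z.1.2 = k + 1 ∧ el (pair k w) z.1.1.2 ∧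
        z.2 = h ((z.1.1.1.1, k), w))) ?_
    refine RecP.bex hA.coll1 Rec.id.fst.fst.fst.snd
      (R := fun (z : ((((Γ × M) × M) × M) × M) × M) w =>
      (z.1.1.2 = z.2 + 1 ∧ el (pair z.2 w) z.1.1.1.2 ∧
        z.1.2 = h ((z.1.1.1.1.1, z.2), w))) ?_
    refine RecP.and ?_ (RecP.and ?_ ?_)
    · exact RecP.eq Rec.id.fst.fst.fst.snd (Rec.id.fst.snd.add (Rec.const 1))
    · exact el_rec.comp ((Rec.pair Rec.id.fst.snd Rec.id.snd).prodMk Rec.id.fst.fst.fst.fst.snd)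
    · exact RecP.eq Rec.id.fst.fst.snd (hh.comp
        ((Rec.id.fst.fst.fst.fst.fst.fst.prodMk Rec.id.fst.snd).prodMk Rec.id.snd))

theorem recG_sig1 (hA : IS1 A) {bd : M → M} (hC : CodAPI M bd) {g0 : Γ → M}
    {h : (Γ × M) × M → M} (hg0 : Rec A g0) (hh : Rec A h) :
    Sig1 A (fun z : (Γ × M) × M => RecG g0 h z.1.1 z.1.2 z.2) := by
  have el_rec : RecP A (fun z : M × M => el z.1 z.2) := hC.el_rec.of_pure A
  refine Sig1.ex (R := fun (z : (Γ × M) × M) c => RecW g0 h z.1.1 z.1.2 c ∧ el (pair z.1.2 z.2) c) ?_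
  refine RecP.sig1 (RecP.and ?_ ?_)
  · exact (recW_rec hA hC hg0 hh).comp (Rec.id.fst.fst.prodMk Rec.id.snd)
  · exact el_rec.comp ((Rec.pair Rec.id.fst.fst.snd Rec.id.fst.snd).prodMk Rec.id.snd)

omit [Ctx M Γ] in
theorem recG_zero (hA : IS1 A) {bd : M → M} (hC : CodAPI M bd) (g0 : Γ → M)
    (h : (Γ × M) × M → M) (g : Γ) : RecG g0 h g 0 (g0 g) := by
  have hs := fun x => hC.mk_spec A hA.base (fun x => x = pair 0 (g0 g))
    (RecP.eq Rec.id (Rec.const _)) (pair 0 (g0 g) + 1) x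
  refine ⟨_, ?_, (hs _).mpr ⟨lt_add_one' _, rfl⟩⟩
  intro i _ y _ hel
  obtain ⟨-, h2⟩ := (hs _).mp hel
  obtain ⟨rfl, rfl⟩ := pair_inj h2
  exact ⟨le_rfl, Or.inl ⟨rfl, rfl⟩⟩

omit [Ctx M Γ] in
theorem recG_succ (hA : IS1 A) {bd : M → M} (hC : CodAPI M bd) (g0 : Γ → M)
    (h : (Γ × M) × M → M) (g : Γ) {n y : M} (hy : RecG g0 h g n y) :
    RecG g0 h g (n + 1) (h ((g, n), y)) := by
  have el_rec : RecP A (fun z : M × M => el z.1 z.2) := hC.el_rec.of_pure A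
  obtain ⟨c, hc, hel⟩ := hy
  obtain ⟨y', hy'⟩ : ∃ y', y' = h ((g, n), y) := ⟨_, rfl⟩
  rw [← hy']
  have hs0 := fun x => hC.mk_spec A hA.base (fun x => el x c ∨ x = pair (n + 1) y')
    ((el_rec.comp (Rec.id.prodMk (Rec.const c))).or (RecP.eq Rec.id (Rec.const _)))
    (c + (pair (n + 1) y' + 1)) x
  obtain ⟨c', hc'⟩ : ∃ c', c' = mk (c + (pair (n + 1) y' + 1))
    (fun x => el x c ∨ x = pair (n + 1) y') := ⟨_, rfl⟩
  rw [← hc'] at hs0
  have hs : ∀ x, el x c' ↔ el x c ∨ x = pair (n + 1) y' := by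
    intro x
    rw [hs0]
    constructor
    · exact fun h => h.2
    · intro h1
      refine ⟨?_, h1⟩
      rcases h1 with h1 | h1
      · exact (hC.el_lt _ _ h1).trans_le le_self_add
      · rw [h1]
        exact (lt_add_one' _).trans_le le_add_self
  refine ⟨c', ?_, (hs _).mpr (Or.inr rfl)⟩
  intro i _ w _ hel'
  rcases (hs _).mp hel' with h1 | h1
  · have hlt := hC.el_lt _ _ h1
    obtain ⟨h2, h3⟩ := hc i ((le_pair_left _ _).trans_lt hlt) w ((le_pair_right _ _).trans_lt hlt) h1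
    refine ⟨h2.trans (lt_add_one' n).le, ?_⟩
    rcases h3 with h3 | ⟨k, -, z, -, h4, h5, h6⟩
    · exact Or.inl h3
    · have h5' := (hs _).mpr (Or.inl h5)
      have hlt' := hC.el_lt _ _ h5'
      exact Or.inr ⟨k, (le_pair_left _ _).trans_lt hlt', z, (le_pair_right _ _).trans_lt hlt', h4, h5',
        h6⟩
  · obtain ⟨rfl, rfl⟩ := pair_inj h1
    refine ⟨le_rfl, Or.inr ?_⟩
    have h5' := (hs _).mpr (Or.inl hel)
    have hlt' := hC.el_lt _ _ h5'
    exact ⟨n, (le_pair_left _ _).trans_lt hlt', y, (le_pair_right _ _).trans_lt hlt', rfl, h5', hy'⟩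

omit [Ctx M Γ] in
theorem recG_unique (hA : IS1 A) {bd : M → M} (hC : CodAPI M bd) {g0 : Γ → M}
    {h : (Γ × M) × M → M} {g : Γ} {n y y' : M}
    (hy : RecG g0 h g n y) (hy' : RecG g0 h g n y') : y = y' := by
  have el_rec : RecP A (fun z : M × M => el z.1 z.2) := hC.el_rec.of_pure A
  obtain ⟨c, hc, hel⟩ := hy
  obtain ⟨c', hc', hel'⟩ := hy'
  have key : ∀ i, ∀ y, y < c → ∀ y', y' < c' → (el (pair i y) c → el (pair i y') c' → y = y') := by
    refine hA.base.ind _ ?_ ?_ ?_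
    · refine RecP.ball hA.coll1 (Rec.const c) (R := fun (i : M) y => ∀ y', y' < c' →
        (el (pair i y) c → el (pair i y') c' → y = y')) ?_
      refine RecP.ball hA.coll1 (Rec.const c') (R := fun (z : M × M) y' =>
        (el (pair z.1 z.2) c → el (pair z.1 y') c' → z.2 = y')) ?_
      refine RecP.imp ?_ (RecP.imp ?_ ?_)
      · exact el_rec.comp ((Rec.pair Rec.id.fst.fst Rec.id.fst.snd).prodMk (Rec.const c))
      · exact el_rec.comp ((Rec.pair Rec.id.fst.fst Rec.id.snd).prodMk (Rec.const c'))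
      · exact RecP.eq Rec.id.fst.snd Rec.id.snd
    · intro y _ y' _ h1 h2
      have hlt := hC.el_lt _ _ h1
      have hlt' := hC.el_lt _ _ h2
      rcases (hc 0 ((le_pair_left _ _).trans_lt hlt) y ((le_pair_right _ _).trans_lt hlt) h1).2 with
        h3 | ⟨k, -, z, -, h4, -⟩
      · rcases (hc' 0 ((le_pair_left _ _).trans_lt hlt') y' ((le_pair_right _ _).trans_lt hlt')
          h2).2 with h5 | ⟨k, -, z, -, h4, -⟩
        · rw [h3.2, h5.2]
        · exact absurd (lt_add_one' k) (h4 ▸ not_lt_zero'' k)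
      · exact absurd (lt_add_one' k) (h4 ▸ not_lt_zero'' k)
    · intro i ih y _ y' _ h1 h2
      have hlt := hC.el_lt _ _ h1
      have hlt' := hC.el_lt _ _ h2
      rcases (hc (i + 1) ((le_pair_left _ _).trans_lt hlt) y ((le_pair_right _ _).trans_lt hlt)
        h1).2 with h3 | ⟨k, -, z, -, h4, h5, h6⟩
      · exact absurd (lt_add_one' i) (h3.1 ▸ not_lt_zero'' i)
      · rcases (hc' (i + 1) ((le_pair_left _ _).trans_lt hlt') y' ((le_pair_right _ _).trans_lt hlt')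
          h2).2 with h3' | ⟨k', -, z', -, h4', h5', h6'⟩
        · exact absurd (lt_add_one' i) (h3'.1 ▸ not_lt_zero'' i)
        · have hk := add_right_cancel h4
          have hk' := add_right_cancel h4'
          subst hk
          subst hk'
          have hlt2 := hC.el_lt _ _ h5
          have hlt2' := hC.el_lt _ _ h5'
          have := ih z ((le_pair_right _ _).trans_lt hlt2) z' ((le_pair_right _ _).trans_lt hlt2')
            h5 h5'
          rw [h6, h6', this]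
  have hlt := hC.el_lt _ _ hel
  have hlt' := hC.el_lt _ _ hel'
  exact key n y ((le_pair_right _ _).trans_lt hlt) y' ((le_pair_right _ _).trans_lt hlt') hel hel'

theorem st_REC1 (M : Type u) [PModel M] (A : ℕ → Set M) (hA : IS1 A)
    (hC0 : ∃ bd : M → M, CodAPI M bd) (Γ : Type u) [Ctx M Γ] (g0 : Γ → M)
    (h : (Γ × M) × M → M) (hg0 : Rec A g0) (hh : Rec A h) :
    ∃ F : Γ × M → M, Rec A F ∧ (∀ g, F (g, 0) = g0 g) ∧
      ∀ g n, F (g, n + 1) = h ((g, n), F (g, n)) := by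
  obtain ⟨bd, hC⟩ := hC0
  have hex : ∀ (g : Γ) (n : M), ∃ y, RecG g0 h g n y := by
    intro g
    refine hA.ind _ ?_ ?_ ?_
    · refine Sig1.ex (R := fun (n : M) y => RecG g0 h g n y) ?_
      exact (recG_sig1 hA hC hg0 hh).comp (((Rec.const g).prodMk Rec.id.fst).prodMk Rec.id.snd)
    · exact ⟨_, recG_zero hA hC g0 h g⟩
    · rintro n ⟨y, hy⟩
      exact ⟨_, recG_succ hA hC g0 h g hy⟩
  choose F hF using hex
  refine ⟨fun z => F z.1 z.2, ?_, ?_, ?_⟩
  · refine Rec.of_graph (R := fun (z : Γ × M) y => RecG g0 h z.1 z.2 y) (recG_sig1 hA hC hg0 hh) ?_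
    intro z y
    constructor
    · intro h1
      exact recG_unique hA hC h1 (hF _ _)
    · rintro rfl
      exact hF _ _
  · intro g
    exact recG_unique hA hC (hF _ _) (recG_zero hA hC g0 h g)
  · intro g n
    exact recG_unique hA hC (hF _ _) (recG_succ hA hC g0 h g (hF _ _))

theorem st_REC : ST_REC.{u} := fun M _ A hA hC Γ _ g0 h hg0 hh =>
  st_REC1 M A hA.is1 hC Γ g0 h hg0 hh

end Pool.Agent.Helper70.BRT
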