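import Pool.Agent.Helper70.BRT.Def

/-! # `Δ₁` relations and functions -/

namespace Pool.Agent.Helper70.BRT

universe u

variable {M : Type u} [PModel M] {A : ℕ → Set M}
variable {Γ Δ Θ : Type u} [Ctx M Γ] [Ctx M Δ] [Ctx M Θ]

theorem Poly.rec1 {F : Γ → M} (hF : Poly F) : Rec1 A F :=
  (D0.eq PMap.id.snd.toPoly (hF.comp PMap.id.fst)).sig1

theorem sig1_comp_aux (φ : Fm M) : ∀ (k : ℕ) (Γ : Type u) [Ctx M Γ] (F : ℕ → Γ → M),
    (∀ i, i < k → Rec1 A (F i)) → (∀ i, k ≤ i → Poly (F i)) →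
    (∃ N, ∀ i, N ≤ i → ∀ g, F i g = 0) →
    Sig1 A (fun g => ∃ x, φ.eval A (cons x (fun i => F i g))) := by
  intro k
  induction k with
  | zero =>
    intro Γ _ F _ h _
    refine sig1_iff.mpr ⟨fun g => φ.eval A (cons g.2 (fun i => F i g.1)), ?_, fun g => Iff.rfl⟩
    choose s hs using fun i => (h i (Nat.zero_le _)).comp (PMap.id (M := M) (Γ := Γ × M)).fst
    refine ⟨φ.subst (fun i => match i with
      | 0 => .var 0
      | i + 1 => s i), fun g => ?_⟩
    rw [Fm.eval_subst]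
    have : (cons g.2 (fun i => F i g.1) : ℕ → M) = fun i => Tm.eval (env g) (match i with
      | 0 => .var 0
      | i + 1 => s i) := by
      funext i
      match i with
      | 0 =>
        obtain ⟨a, b⟩ := g
        change b = env (a, b) 0
        rw [env_cons]
        rfl
      | i + 1 => exact hs i g
    rw [← this]
  | succ k ih =>
    intro Γ _ F h1 h2 h3
    have hk := h1 k (Nat.lt_succ_self k)
    have key := ih (Γ × M) (fun i g => if i = k then g.2 else F i g.1) ?_ ?_ ?_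
    · have h4 : Sig1 A (fun g : Γ × M => g.2 = F k g.1 ∧
          ∃ x, φ.eval A (cons x (fun i => if i = k then g.2 else F i g.1))) := hk.and key
      refine (Sig1.ex (R := fun g y => y = F k g ∧
        ∃ x, φ.eval A (cons x (fun i => if i = k then y else F i g))) h4).congr fun g => ?_
      have h5 : (fun i => if i = k then F k g else F i g) = fun i => F i g := by
        funext i
        by_cases hi : i = k
        · rw [if_pos hi, hi]
        · rw [if_neg hi]
      constructor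
      · intro h
        refine ⟨F k g, rfl, ?_⟩
        rw [h5]
        exact h
      · rintro ⟨y, rfl, h⟩
        rw [h5] at h
        exact h
    · intro i hi
      have : ∀ g : Γ × M, (if i = k then g.2 else F i g.1) = F i g.1 := fun g => if_neg hi.ne
      simp only [this]
      exact (h1 i (Nat.lt_succ_of_lt hi)).compP
        ((PMap.id.fst.fst).prodMk PMap.id.snd)
    · intro i hi
      by_cases hik : i = k
      · simp only [hik, if_true]
        exact PMap.id.snd.toPoly
      · simp only [hik, if_false]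
        exact (h2 i (by omega)).comp PMap.id.fst
    · obtain ⟨N, hN⟩ := h3
      refine ⟨max N (k + 1), fun i hi g => ?_⟩
      have : i ≠ k := by
        have := le_max_right N (k + 1)
        omega
      simp only [this, if_false]
      exact hN i ((le_max_left _ _).trans hi) g.1

theorem Sig1.comp {R : Δ → Prop} {F : Γ → Δ} (hR : Sig1 A R) (hF : Rec A F) :
    Sig1 A (fun g => R (F g)) := by
  obtain ⟨φ, hφ⟩ := hR
  have := sig1_comp_aux (A := A) φ (Ctx.n M Δ) Γ
    (fun i g => if i < Ctx.n M Δ then Ctx.pr i (F g) else 0) ?_ ?_ ?_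
  · exact this.congr fun g => hφ (F g)
  · intro i hi
    simp only [hi, if_true]
    exact hF i hi
  · intro i hi
    simp only [not_lt.mpr hi, if_false]
    exact Poly.const 0
  · refine ⟨Ctx.n M Δ, fun i hi g => ?_⟩
    simp only [not_lt.mpr hi, if_false]

theorem PMap.rec {F : Γ → Δ} (hF : PMap (M := M) F) : Rec A F := fun i hi => (hF i hi).rec1

theorem Poly.rec {F : Γ → M} (hF : Poly F) : Rec A F := hF.toPMap.rec

theorem Rec.toRec1 {F : Γ → M} (hF : Rec A F) : Rec1 A F := hF 0 (by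
  change 0 < 1; omega)

theorem Rec1.toRec {F : Γ → M} (hF : Rec1 A F) : Rec A F := fun _ _ => hF

theorem Rec.id : Rec A (fun g : Γ => g) := PMap.id.rec

theorem Rec.const (d : Δ) : Rec A (fun _ : Γ => d) := (PMap.const d).rec

theorem Rec.prodMk {F : Γ → Δ} {G : Γ → Θ} (hF : Rec A F) (hG : Rec A G) :
    Rec A (fun g => (F g, G g)) := by
  intro i hi
  by_cases h : i < Ctx.n M Θ
  · have := hG i h
    have h2 : ∀ g, (Ctx.pr i (F g, G g) : M) = Ctx.pr i (G g) := fun g => by
      change (if i < Ctx.n M Θ then (Ctx.pr i (G g) : M) else Ctx.pr (i - Ctx.n M Θ) (F g)) = _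
      rw [if_pos h]
    simp only [h2]
    exact this
  · have := hF (i - Ctx.n M Θ) (by
      change _ < Ctx.n M Δ + Ctx.n M Θ at hi; omega)
    have h2 : ∀ g, (Ctx.pr i (F g, G g) : M) = Ctx.pr (i - Ctx.n M Θ) (F g) := fun g => by
      change (if i < Ctx.n M Θ then (Ctx.pr i (G g) : M) else Ctx.pr (i - Ctx.n M Θ) (F g)) = _
      rw [if_neg h]
    simp only [h2]
    exact this

theorem Rec1.comp {F : Δ → M} {G : Γ → Δ} (hF : Rec1 A F) (hG : Rec A G) :
    Rec1 A (fun g => F (G g)) := by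
  have h1 : Rec A (fun g : Γ × M => (G g.1, g.2)) := by
    refine Rec.prodMk ?_ PMap.id.snd.rec
    intro i hi
    exact (hG i hi).compP ((PMap.id.fst.fst).prodMk PMap.id.snd)
  exact Sig1.comp (R := fun z : Δ × M => z.2 = F z.1) hF h1

theorem Rec.comp {F : Δ → Θ} {G : Γ → Δ} (hF : Rec A F) (hG : Rec A G) :
    Rec A (fun g => F (G g)) := fun i hi => (hF i hi).comp hG

theorem Rec.fst {F : Γ → Δ × Θ} (hF : Rec A F) : Rec A (fun g => (F g).1) :=
  Rec.comp (F := fun z : Δ × Θ => z.1) PMap.id.fst.rec hF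

theorem Rec.snd {F : Γ → Δ × Θ} (hF : Rec A F) : Rec A (fun g => (F g).2) :=
  Rec.comp (F := fun z : Δ × Θ => z.2) PMap.id.snd.rec hF

theorem Rec.add {F G : Γ → M} (hF : Rec A F) (hG : Rec A G) : Rec A (fun g => F g + G g) :=
  Rec.comp (F := fun z : M × M => z.1 + z.2)
    (Poly.add PMap.id.fst.toPoly PMap.id.snd.toPoly).rec (hF.prodMk hG)

theorem Rec.mul {F G : Γ → M} (hF : Rec A F) (hG : Rec A G) : Rec A (fun g => F g * G g) :=
  Rec.comp (F := fun z : M × M => z.1 * z.2)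
    (Poly.mul PMap.id.fst.toPoly PMap.id.snd.toPoly).rec (hF.prodMk hG)

theorem Rec.pair {F G : Γ → M} (hF : Rec A F) (hG : Rec A G) : Rec A (fun g => pair (F g) (G g)) :=
  Rec.comp (F := fun z : M × M => BRT.pair z.1 z.2)
    (Poly.pair PMap.id.fst.toPoly PMap.id.snd.toPoly).rec (hF.prodMk hG)

/-! ## Relations -/

theorem RecP.congr {R S : Γ → Prop} (hR : RecP A R) (h : ∀ g, S g ↔ R g) : RecP A S :=
  ⟨hR.1.congr h, hR.2.congr fun g => not_congr (h g)⟩

theorem RecP.comp {R : Δ → Prop} {F : Γ → Δ} (hR : RecP A R) (hF : Rec A F) :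
    RecP A (fun g => R (F g)) := ⟨hR.1.comp hF, hR.2.comp hF⟩

theorem RecP.not {R : Γ → Prop} (hR : RecP A R) : RecP A (fun g => ¬ R g) :=
  ⟨hR.2, hR.1.congr fun _ => not_not⟩

theorem RecP.and {R S : Γ → Prop} (hR : RecP A R) (hS : RecP A S) : RecP A (fun g => R g ∧ S g) :=
  ⟨hR.1.and hS.1, (hR.2.or hS.2).congr fun _ => not_and_or⟩

theorem RecP.or {R S : Γ → Prop} (hR : RecP A R) (hS : RecP A S) : RecP A (fun g => R g ∨ S g) :=
  ⟨hR.1.or hS.1, (hR.2.and hS.2).congr fun _ => not_or⟩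

theorem RecP.imp {R S : Γ → Prop} (hR : RecP A R) (hS : RecP A S) : RecP A (fun g => R g → S g) :=
  (hR.not.or hS).congr fun _ => imp_iff_not_or

theorem RecP.iff {R S : Γ → Prop} (hR : RecP A R) (hS : RecP A S) : RecP A (fun g => R g ↔ S g) :=
  ((hR.imp hS).and (hS.imp hR)).congr fun _ => iff_iff_implies_and_implies

theorem RecP.eq {F G : Γ → M} (hF : Rec A F) (hG : Rec A G) : RecP A (fun g => F g = G g) :=
  RecP.comp (R := fun z : M × M => z.1 = z.2)
    (D0.eq PMap.id.fst.toPoly PMap.id.snd.toPoly).recP (hF.prodMk hG)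

theorem RecP.lt {F G : Γ → M} (hF : Rec A F) (hG : Rec A G) : RecP A (fun g => F g < G g) :=
  RecP.comp (R := fun z : M × M => z.1 < z.2)
    (D0.lt PMap.id.fst.toPoly PMap.id.snd.toPoly).recP (hF.prodMk hG)

theorem RecP.le {F G : Γ → M} (hF : Rec A F) (hG : Rec A G) : RecP A (fun g => F g ≤ G g) :=
  RecP.comp (R := fun z : M × M => z.1 ≤ z.2)
    (D0.le PMap.id.fst.toPoly PMap.id.snd.toPoly).recP (hF.prodMk hG)

theorem RecP.mem (i : ℕ) {F : Γ → M} (hF : Rec A F) : RecP A (fun g => F g ∈ A i) :=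
  RecP.comp (R := fun z : M => z ∈ A i) (D0.mem i PMap.id.toPoly).recP hF

theorem RecP.const (p : Prop) : RecP A (fun _ : Γ => p) := (D0.const p).recP

/-- Bounded universal quantification. -/
theorem Sig1.ball (hA : Coll1 A) {t : Γ → M} (ht : Rec A t) {R : Γ → M → Prop}
    (hR : Sig1 A (fun g : Γ × M => R g.1 g.2)) : Sig1 A (fun g => ∀ x, x < t g → R g x) := by
  have h1 : Sig1 A (fun g : Γ × M => ∀ x, x < g.2 → R g.1 x) :=
    Sig1.ballP (R := fun (g : Γ × M) x => R g.1 x) hA PMap.id.snd.toPoly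
      (hR.compP (PMap.id.fst.fst.prodMk PMap.id.snd))
  exact Sig1.comp (F := fun g => (g, t g)) h1 (Rec.id.prodMk ht)

theorem Sig1.bex {t : Γ → M} (ht : Rec A t) {R : Γ → M → Prop}
    (hR : Sig1 A (fun g : Γ × M => R g.1 g.2)) : Sig1 A (fun g => ∃ x, x < t g ∧ R g x) := by
  refine Sig1.ex (R := fun g x => x < t g ∧ R g x) ?_
  exact (RecP.lt PMap.id.snd.rec (ht.comp PMap.id.fst.rec)).1.and hR

theorem RecP.ball (hA : Coll1 A) {t : Γ → M} (ht : Rec A t) {R : Γ → M → Prop}
    (hR : RecP A (fun g : Γ × M => R g.1 g.2)) : RecP A (fun g => ∀ x, x < t g → R g x) :=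
  ⟨Sig1.ball hA ht hR.1, (Sig1.bex ht (R := fun g x => ¬ R g x) hR.2).congr fun g => by
    push Not; rfl⟩

theorem RecP.bex (hA : Coll1 A) {t : Γ → M} (ht : Rec A t) {R : Γ → M → Prop}
    (hR : RecP A (fun g : Γ × M => R g.1 g.2)) : RecP A (fun g => ∃ x, x < t g ∧ R g x) :=
  (RecP.ball hA ht (R := fun g x => ¬ R g x) hR.not).not.congr fun g => by push Not; rfl

/-! ## Least number principle and minimisation -/

theorem Base.lnp (hA : Base A) {P : M → Prop} (hP : RecP A P) (h : ∃ x, P x) :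
    ∃ x, P x ∧ ∀ y, y < x → ¬ P y := by
  by_contra hc
  push Not at hc
  have h1 : ∀ x, ∀ y, y < x → ¬ P y := by
    refine hA.ind (fun x => ∀ y, y < x → ¬ P y) ?_ ?_ ?_
    · exact RecP.ball hA.coll PMap.id.rec (R := fun _ y => ¬ P y) (hP.not.comp PMap.id.snd.rec)
    · intro y hy
      exact absurd hy (not_lt_zero'' y)
    · intro x hx y hy
      rcases eq_or_lt_of_le (lt_add_one_iff'.mp hy) with h2 | h2
      · intro h3
        obtain ⟨z, hz, hPz⟩ := hc y h3
        exact hx z (h2 ▸ hz) hPz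
      · exact hx y h2
  obtain ⟨x, hx⟩ := h
  exact h1 (x + 1) x (lt_add_one' x) hx

open Classical in
/-- The least element of `P`, or `0`. -/
noncomputable def mu (P : M → Prop) : M :=
  if h : ∃ x, P x ∧ ∀ y, y < x → ¬ P y then Classical.choose h else 0

theorem mu_spec (hA : Base A) {P : M → Prop} (hP : RecP A P) (h : ∃ x, P x) :
    P (mu P) ∧ ∀ y, y < mu P → ¬ P y := by
  have h1 := hA.lnp hP h
  unfold mu
  rw [dif_pos h1]
  exact Classical.choose_spec h1

theorem mu_eq {P : M → Prop} {x : M} (hx : P x) (h : ∀ y, y < x → ¬ P y) : mu P = x := by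
  have h1 : ∃ x, P x ∧ ∀ y, y < x → ¬ P y := ⟨x, hx, h⟩
  unfold mu
  rw [dif_pos h1]
  obtain ⟨h2, h3⟩ := Classical.choose_spec h1
  rcases lt_trichotomy (Classical.choose h1) x with h4 | h4 | h4
  · exact absurd h2 (h _ h4)
  · exact h4
  · exact absurd hx (h3 _ h4)

/-- Minimisation of a total relation is recursive. -/
theorem Rec.mu (hA : Base A) {R : Γ → M → Prop} (hR : RecP A (fun g : Γ × M => R g.1 g.2))
    (h : ∀ g, ∃ x, R g x) : Rec A (fun g => BRT.mu (R g)) := by
  apply Rec1.toRec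
  have h0 : ∀ g, RecP A (R g) := fun g =>
    RecP.comp (R := fun z : Γ × M => R z.1 z.2) hR ((Rec.const g).prodMk Rec.id)
  have h1 : RecP A (fun g : Γ × M => R g.1 g.2 ∧ ∀ y, y < g.2 → ¬ R g.1 y) :=
    hR.and (RecP.ball hA.coll PMap.id.snd.rec (R := fun (g : Γ × M) y => ¬ R g.1 y)
      (hR.not.comp (Rec.prodMk PMap.id.fst.fst.rec PMap.id.snd.rec)))
  refine h1.1.congr fun g => ?_
  constructor
  · intro h2
    have h3 := mu_spec hA (h0 g.1) (h g.1)
    rw [h2]
    exact h3
  · rintro ⟨h2, h3⟩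
    exact (mu_eq h2 h3).symm

open Classical in
theorem Rec.ite {P : Γ → Prop} (hP : RecP A P) {F G : Γ → M} (hF : Rec A F) (hG : Rec A G) :
    Rec A (fun g => if P g then F g else G g) := by
  apply Rec1.toRec
  have h1 : RecP A (fun g : Γ × M => (P g.1 ∧ g.2 = F g.1) ∨ (¬ P g.1 ∧ g.2 = G g.1)) :=
    ((hP.comp PMap.id.fst.rec).and (RecP.eq PMap.id.snd.rec (hF.comp PMap.id.fst.rec))).or
      ((hP.not.comp PMap.id.fst.rec).and (RecP.eq PMap.id.snd.rec (hG.comp PMap.id.fst.rec)))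
  refine h1.1.congr fun g => ?_
  by_cases h : P g.1
  · simp [h]
  · simp [h]

/-- A function with recursive graph. -/
theorem Rec.of_graph {F : Γ → M} {R : Γ → M → Prop} (hR : Sig1 A (fun g : Γ × M => R g.1 g.2))
    (h : ∀ g y, R g y ↔ y = F g) : Rec A F :=
  Rec1.toRec (hR.congr fun g => (h g.1 g.2).symm)

end Pool.Agent.Helper70.BRT
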