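import Mathlib

/-!
# Second order arithmetic: language, theories, models (the definitions used in the final statement)
-/

namespace Pool.Agent.Helper70.BRTStmt

universe u

/-- Prepend an entry to an assignment: `scons x v` is `x, v 0, v 1, …`. -/
def scons {X : Type u} (x : X) (v : ℕ → X) : ℕ → X
  | 0 => x
  | n + 1 => v n

/-- Number terms of the language `L₂` (number variables are de Bruijn indices). -/
inductive NTerm : Type
  | var (i : ℕ)
  | zero
  | one
  | add (s t : NTerm)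
  | mul (s t : NTerm)

/-- Formulas of `L₂` (number and set variables are de Bruijn indices). -/
inductive Form : Type
  | eq (s t : NTerm)
  | lt (s t : NTerm)
  | mem (t : NTerm) (X : ℕ)
  | neg (φ : Form)
  | and (φ ψ : Form)
  | allN (φ : Form)
  | allS (φ : Form)

section eval

variable {M : Type u} [Zero M] [One M] [Add M] [Mul M] [LT M]

/-- The value of a term. -/
def NTerm.eval (v : ℕ → M) : NTerm → M
  | .var i => v i
  | .zero => 0
  | .one => 1
  | .add s t => s.eval v + t.eval v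
  | .mul s t => s.eval v * t.eval v

/-- Truth of a formula in the structure `(M, 𝒮)` under the assignment `V` of the set variables and
`v` of the number variables. -/
def Form.eval (𝒮 : Set (Set M)) : Form → (ℕ → Set M) → (ℕ → M) → Prop
  | .eq s t, _, v => s.eval v = t.eval v
  | .lt s t, _, v => s.eval v < t.eval v
  | .mem t X, V, v => t.eval v ∈ V X
  | .neg φ, V, v => ¬ φ.eval 𝒮 V v
  | .and φ ψ, V, v => φ.eval 𝒮 V v ∧ ψ.eval 𝒮 V v
  | .allN φ, V, v => ∀ x : M, φ.eval 𝒮 V (scons x v)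
  | .allS φ, V, v => ∀ X : Set M, X ∈ 𝒮 → φ.eval 𝒮 (scons X V) v

end eval

/-- The term `t` with all variables shifted by one. -/
def NTerm.shift : NTerm → NTerm
  | .var i => .var (i + 1)
  | .zero => .zero
  | .one => .one
  | .add s t => .add s.shift t.shift
  | .mul s t => .mul s.shift t.shift

/-- `φ → ψ`. -/
def Form.imp (φ ψ : Form) : Form := .neg (.and φ (.neg ψ))

/-- `∃ x, φ`. -/
def Form.exN (φ : Form) : Form := .neg (.allN (.neg φ))

/-- Bounded (`Δ⁰₀`) formulas: all quantifiers are number quantifiers `∀ x < t` (and, through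
negations, `∃ x < t`) where `x` does not occur in `t`. -/
inductive IsDelta00 : Form → Prop
  | eq (s t : NTerm) : IsDelta00 (.eq s t)
  | lt (s t : NTerm) : IsDelta00 (.lt s t)
  | mem (t : NTerm) (X : ℕ) : IsDelta00 (.mem t X)
  | neg {φ : Form} : IsDelta00 φ → IsDelta00 (.neg φ)
  | and {φ ψ : Form} : IsDelta00 φ → IsDelta00 ψ → IsDelta00 (.and φ ψ)
  | ball (t : NTerm) {φ : Form} : IsDelta00 φ → IsDelta00 (.allN (.imp (.lt (.var 0) t.shift) φ))

/-- `Σ⁰₁` formulas: `∃ x φ` with `φ` bounded. -/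
def IsSigma01 (φ : Form) : Prop := ∃ ψ, IsDelta00 ψ ∧ φ = .exN ψ

/-- `Σ⁰₂` formulas: `∃ x ∀ y φ` with `φ` bounded. -/
def IsSigma02 (φ : Form) : Prop := ∃ ψ, IsDelta00 ψ ∧ φ = .exN (.allN ψ)

/-- Arithmetical formulas: no set quantifiers. -/
inductive IsArith : Form → Prop
  | eq (s t : NTerm) : IsArith (.eq s t)
  | lt (s t : NTerm) : IsArith (.lt s t)
  | mem (t : NTerm) (X : ℕ) : IsArith (.mem t X)
  | neg {φ : Form} : IsArith φ → IsArith (.neg φ)
  | and {φ ψ : Form} : IsArith φ → IsArith ψ → IsArith (.and φ ψ)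
  | allN {φ : Form} : IsArith φ → IsArith (.allN φ)

/-- `Π¹₁` formulas: a block of universal set quantifiers in front of an arithmetical formula. -/
inductive IsPi11 : Form → Prop
  | arith {φ : Form} : IsArith φ → IsPi11 φ
  | allS {φ : Form} : IsPi11 φ → IsPi11 (.allS φ)

/-- The axioms `P⁻` of discretely ordered commutative semirings. -/
structure PMinus (M : Type u) [Zero M] [One M] [Add M] [Mul M] [LT M] : Prop where
  add_assoc : ∀ x y z : M, (x + y) + z = x + (y + z)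
  add_comm : ∀ x y : M, x + y = y + x
  mul_assoc : ∀ x y z : M, (x * y) * z = x * (y * z)
  mul_comm : ∀ x y : M, x * y = y * x
  mul_add : ∀ x y z : M, x * (y + z) = x * y + x * z
  add_zero : ∀ x : M, x + 0 = x
  mul_zero : ∀ x : M, x * 0 = 0
  mul_one : ∀ x : M, x * 1 = x
  lt_trans : ∀ x y z : M, x < y → y < z → x < z
  lt_irrefl : ∀ x : M, ¬ x < x
  lt_total : ∀ x y : M, x < y ∨ x = y ∨ y < x
  add_lt_add : ∀ x y z : M, x < y → x + z < y + z
  mul_lt_mul : ∀ x y z : M, 0 < z → x < y → x * z < y * z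
  exists_add : ∀ x y : M, x < y → ∃ z, x + z = y
  zero_lt_one : (0 : M) < 1
  discrete : ∀ x : M, 0 < x → x = 1 ∨ 1 < x
  nonneg : ∀ x : M, x = 0 ∨ 0 < x

section theories

variable (M : Type u) [Zero M] [One M] [Add M] [Mul M] [LT M] (𝒮 : Set (Set M))

/-- `(M, 𝒮)` is a model of `RCA₀`: `P⁻`, `Σ⁰₁` induction and `Δ⁰₁` comprehension, with arbitrary
number parameters `v` and set parameters `V`. -/
structure IsRCA0 : Prop where
  pminus : PMinus M
  nonempty : 𝒮.Nonempty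
  induction : ∀ φ, IsSigma01 φ → ∀ V : ℕ → Set M, (∀ i, V i ∈ 𝒮) → ∀ v : ℕ → M,
    φ.eval 𝒮 V (scons 0 v) → (∀ x, φ.eval 𝒮 V (scons x v) → φ.eval 𝒮 V (scons (x + 1) v)) →
    ∀ x, φ.eval 𝒮 V (scons x v)
  comprehension : ∀ φ ψ, IsSigma01 φ → IsSigma01 ψ → ∀ V : ℕ → Set M, (∀ i, V i ∈ 𝒮) →
    ∀ v : ℕ → M, (∀ x, φ.eval 𝒮 V (scons x v) ↔ ¬ ψ.eval 𝒮 V (scons x v)) →
    {x | φ.eval 𝒮 V (scons x v)} ∈ 𝒮

/-- `BΣ⁰₂`: the collection scheme for `Σ⁰₂` formulas `φ(x, y)` (`y` is the variable `0` and `x` the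
variable `1` of `φ`). -/
def BSigma02 : Prop :=
  ∀ φ, IsSigma02 φ → ∀ V : ℕ → Set M, (∀ i, V i ∈ 𝒮) → ∀ (v : ℕ → M) (a : M),
    (∀ x, x < a → ∃ y, φ.eval 𝒮 V (scons y (scons x v))) →
    ∃ b, ∀ x, x < a → ∃ y, y < b ∧ φ.eval 𝒮 V (scons y (scons x v))

variable {M}

/-- The code of the ordered pair `(x, y)`. -/
def code (x y : M) : M := (x + y) * (x + y) + x

/-- The set `X` is homogeneous with colour `1` for the colouring of pairs coded by `F`: for `x < y`
the pair `{x, y}` has colour `1` if `code x y ∈ F` and colour `0` otherwise. -/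
def Hom1 (F X : Set M) : Prop := ∀ x ∈ X, ∀ y ∈ X, x < y → code x y ∈ F

/-- The set `X` is homogeneous with colour `0`. -/
def Hom0 (F X : Set M) : Prop := ∀ x ∈ X, ∀ y ∈ X, x < y → code x y ∉ F

/-- The set `X` has size `l` in `(M, 𝒮)`: some `G ∈ 𝒮` is (the graph of) a bijection from
`{i : i < l}` onto `X`. -/
def HasSize (X : Set M) (l : M) : Prop :=
  ∃ G ∈ 𝒮, (∀ i, i < l → ∃! x, x ∈ X ∧ code i x ∈ G) ∧ (∀ x ∈ X, ∃! i, i < l ∧ code i x ∈ G)

/-- The set `X` is infinite, that is unbounded. -/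
def Unbounded (X : Set M) : Prop := ∀ x, ∃ y ∈ X, x < y

variable (M)

/-- `BRT²₂`: for every colouring `F` and every `l` such that no homogeneous set with colour `1` has
size `l` there is an infinite homogeneous set with colour `0`. -/
def BRT : Prop :=
  ∀ F ∈ 𝒮, ∀ l : M, (∀ X ∈ 𝒮, Hom1 F X → ¬ HasSize 𝒮 X l) →
    ∃ H ∈ 𝒮, Unbounded H ∧ Hom0 F H

/-- The formula `φ` is true in `(M, 𝒮)` (under all assignments of its free variables). -/
def Holds (φ : Form) : Prop :=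
  ∀ V : ℕ → Set M, (∀ i, V i ∈ 𝒮) → ∀ v : ℕ → M, φ.eval 𝒮 V v

end theories

/-- `RCA₀ + BRT²₂ ⊢ φ`: `φ` is true in all models of `RCA₀ + BRT²₂`. -/
def ProvBRT (φ : Form) : Prop :=
  ∀ (M : Type u) [Zero M] [One M] [Add M] [Mul M] [LT M] (𝒮 : Set (Set M)),
    IsRCA0 M 𝒮 → BRT M 𝒮 → Holds M 𝒮 φ

/-- `RCA₀ + BΣ⁰₂ ⊢ φ`: `φ` is true in all models of `RCA₀ + BΣ⁰₂`. -/
def ProvBSigma02 (φ : Form) : Prop :=
  ∀ (M : Type u) [Zero M] [One M] [Add M] [Mul M] [LT M] (𝒮 : Set (Set M)),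
    IsRCA0 M 𝒮 → BSigma02 M 𝒮 → Holds M 𝒮 φ

/-- The final statement: every model of `RCA₀ + BRT²₂` satisfies `BΣ⁰₂`, and `RCA₀ + BRT²₂` is
`Π¹₁`-conservative over `RCA₀ + BΣ⁰₂`. -/
def FINAL : Prop :=
  (∀ (M : Type u) [Zero M] [One M] [Add M] [Mul M] [LT M] (𝒮 : Set (Set M)),
    IsRCA0 M 𝒮 → BRT M 𝒮 → BSigma02 M 𝒮) ∧
  ∀ φ : Form, IsPi11 φ → ProvBRT.{u} φ → ProvBSigma02.{u} φ

end Pool.Agent.Helper70.BRTStmt
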