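import Pool.Agent.Helper70.BRT.Comb
import Pool.Agent.Helper70.BRT.Stmt

/-! # Statements of the modules -/

namespace Pool.Agent.Helper70.BRT

universe u

/-- COD: the coding of finite sets exists. -/
def ST_COD : Prop :=
  ∀ (M : Type u) [PModel M], Nice (fun _ : ℕ => (∅ : Set M)) → ∃ bd : M → M, CodAPI M bd

/-- REC: primitive recursion. -/
def ST_REC : Prop :=
  ∀ (M : Type u) [PModel M] (A : ℕ → Set M), Nice A → (∃ bd : M → M, CodAPI M bd) →
    ∀ (Γ : Type u) [Ctx M Γ] (g0 : Γ → M) (h : (Γ × M) × M → M), Rec A g0 → Rec A h →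
      ∃ F : Γ × M → M, Rec A F ∧ (∀ g, F (g, 0) = g0 g) ∧
        ∀ g n, F (g, n + 1) = h ((g, n), F (g, n))

/-- PRIM: `2^n` and `card` exist. -/
def ST_PRIM : Prop :=
  ∀ (M : Type u) [PModel M], Nice (fun _ : ℕ => (∅ : Set M)) → (∃ bd : M → M, CodAPI M bd) →
    ∃ pw card : M → M, PrimAPI M pw card

/-- CARD: facts about `card`. -/
def ST_CARD : Prop :=
  ∀ (M : Type u) [PModel M], Nice (fun _ : ℕ => (∅ : Set M)) →
    ∀ bd : M → M, CodAPI M bd → ∀ pw card : M → M, PrimAPI M pw card → CardAPI M card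

/-- OR: a bounded formula only uses a bounded part of the oracle number `j`. -/
def ST_OR : Prop :=
  ∀ (M : Type u) [PModel M] (φ : Fm M) (j : ℕ), ∃ t : Tm M, ∀ (A : ℕ → Set M) (G G' : Set M)
    (v : ℕ → M), (∀ x, x < t.eval v → (x ∈ G ↔ x ∈ G')) →
      (φ.eval (Function.update A j G) v ↔ φ.eval (Function.update A j G') v)

/-- OS: evaluation of a bounded formula with the finite oracle `el · s` is `Δ₁`. -/
def ST_OS : Prop :=
  ∀ (M : Type u) [PModel M] (bd : M → M), CodAPI M bd → ∀ (A : ℕ → Set M), Base A →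
    ∀ (φ : Fm M) (j : ℕ) (Γ : Type u) [Ctx M Γ] (V : ℕ → Γ → M) (s : Γ → M),
      (∀ i, Rec A (V i)) → Rec A s →
      RecP A (fun g => φ.eval (Function.update A j {x | el x (s g)}) (fun i => V i g))

/-- UNIV: the universal `Σ₁` relation with an oracle `H` (put in the place `j`). -/
def ST_UNIV : Prop :=
  ∀ (M : Type u) [PModel M] (bd : M → M), CodAPI M bd → ∀ (A : ℕ → Set M), Nice A →
    (∃ m₀, ∀ m, m₀ ≤ m → A m = ∅) → ∀ j, A j = ∅ →
    ∃ Φ : (M × M) × M → Prop, RecP A Φ ∧ Local Φ ∧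
      ∀ (φ : Fm M) (Γ : Type u) [Ctx M Γ], ∃ e : Γ → M, Rec A e ∧
        ∀ H : Set M, (∀ n, ∃ c, ∀ x, el x c ↔ x < n ∧ x ∈ H) → ∀ g : Γ,
          ((∃ x, φ.eval (Function.update A j H) (cons x (env g))) ↔
            ∃ n c, (∀ x, el x c ↔ x < n ∧ x ∈ H) ∧ Φ ((e g, n), c))

/-- UPD: a `Π₁` set can be added to the oracles. -/
def ST_UPD : Prop :=
  ∀ (M : Type u) [PModel M] (bd : M → M), CodAPI M bd → ∀ (A : ℕ → Set M), Nice A →
    ∀ j, A j = ∅ → ∀ G : Set M, Pi1 A (fun x => x ∈ G) → Base (Function.update A j G)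

/-- PATH: unbounded `Δ₁` trees have paths preserving `Base`. -/
def ST_PATH : Prop :=
  ∀ (M : Type u) [PModel M] [Countable M] (bd : M → M), CodAPI M bd → ∀ (A : ℕ → Set M), Base A →
    ∀ j, A j = ∅ → ∀ T : M × M → Prop, RecP A T →
      (∀ n c c', Agree n c c' → T (n, c) → T (n, c')) →
      (∀ n n' c, n ≤ n' → T (n', c) → T (n, c)) →
      (∀ n, ∃ n' c, n ≤ n' ∧ T (n', c)) →
      ∃ H : Set M, (∀ n, ∃ c, (∀ x, el x c ↔ x < n ∧ x ∈ H) ∧ T (n, c)) ∧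
        Base (Function.update A j H)

/-- DEFN: definability and monotonicity of the combinatorial notions. -/
structure DefnAPI (M : Type u) [PModel M] (bd : M → M) (f : M × M → Prop)
    (Φ : (M × M) × M → Prop) (A : ℕ → Set M) : Prop where
  ext_rec : ∀ (Γ : Type u) [Ctx M Γ] (n c n' c' : Γ → M) (R : Γ → M → Prop), Rec A n → Rec A c →
    Rec A n' → Rec A c' → RecP A (fun g : Γ × M => R g.1 g.2) →
    RecP A (fun g => Ext f (n g) (c g) (n' g) (c' g) (R g))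
  ev_rec : ∀ (Γ : Type u) [Ctx M Γ] (b e n c : Γ → M), Rec A b → Rec A e → Rec A n → Rec A c →
    RecP A (fun g => Ev Φ (b g) (e g) (n g) (c g))
  att_rec : ∀ (Γ : Type u) [Ctx M Γ] (S m v : Γ → M) (R : Γ → M → Prop), Rec A S → Rec A m →
    Rec A v → RecP A (fun g : Γ × M => R g.1 g.2) →
    RecP A (fun g => Att bd f Φ (S g) (m g) (v g) (R g))
  cov_rec : ∀ (Γ : Type u) [Ctx M Γ] (S m v N : Γ → M) (P : Γ → M → Prop), Rec A S → Rec A m →
    Rec A v → Rec A N → RecP A (fun g : Γ × M => P g.1 g.2) →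
    RecP A (fun g => Cov bd f Φ (S g) (m g) (v g) (N g) (P g))
  good_pi : Pi1 A (fun S => S ∈ GoodSet bd f Φ)
  att_mono : ∀ (S m v v' : M) (R R' : M → Prop), m ≤ v' → v' ≤ v →
    (∀ y, y < v' → m ≤ y → R' y → R y) → Att bd f Φ S m v R → Att bd f Φ S m v' R'
  cov_mono : ∀ (S m v v' N N' : M) (P P' : M → Prop), m ≤ v' → v' ≤ v → 0 < N → N ≤ N' →
    (∀ y, y < v' → m ≤ y → P' y → P y) → Cov bd f Φ S m v N P → Cov bd f Φ S m v' N' P'
  good_congr : ∀ S S' m : M, (∀ x, el x S ↔ el x S') → Good bd f Φ S m → Good bd f Φ S' m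
  good_single : ∀ S : M, (∀ x, el x S ↔ x = 0) → Good bd f Φ S 0

def ST_DEFN : Prop :=
  ∀ (M : Type u) [PModel M] (bd : M → M), CodAPI M bd → ∀ (A : ℕ → Set M), Nice A →
    ∀ (f : M × M → Prop) (Φ : (M × M) × M → Prop), RecP A f → RecP A Φ → Local Φ →
      DefnAPI M bd f Φ A

/-- GREEDY: the finite Ramsey argument. -/
def ST_GREEDY : Prop :=
  ∀ (M : Type u) [PModel M] (bd : M → M), CodAPI M bd → ∀ pw card : M → M, PrimAPI M pw card →
    CardAPI M card → ∀ (A : ℕ → Set M), Nice A →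
    ∀ (f : M × M → Prop) (l : M), RecP A f → NoClique f card l →
    ∀ (b : M) (cnt : M × M → M), Rec A cnt → (∀ z, cnt z ≤ b + 1) →
    ∀ (u w D ty : M → M) (AA : M × M → Prop), Rec A u → Rec A w → Rec A D → Rec A ty → RecP A AA →
    ∀ (I₀ n₀ c₀ : M), pw (l + b + 1) ≤ card I₀ → Hom0 f n₀ c₀ →
      (∀ i, el i I₀ → n₀ ≤ u i ∧ u i ≤ w i) →
      (∀ i j, el i I₀ → el j I₀ → i < j → w i ≤ u j) →
      (∀ i p, el i I₀ → AA (i, p) → u i ≤ p ∧ p < w i) →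
      (∀ i j, el i I₀ → el j I₀ → i < j → ∀ x y, AA (i, x) → AA (j, y) →
        (f (x, y) ↔ ¬ el x (D j))) →
      (∀ i j, el i I₀ → el j I₀ → i < j → ∀ p, AA (i, p) → (el j (ty i) ↔ el p (D j))) →
      (∀ i, el i I₀ → ∀ n c, n ≤ u i → Ext f n₀ c₀ n c (fun x => el x (D i)) →
        ∃ n' c', n' ≤ w i ∧ Ext f n c n' c' (fun x => AA (i, x)) ∧ cnt (n, c) < cnt (n', c')) →
      False

/-- ONE: the one-step lemma. -/
def ST_ONE : Prop :=
  ∀ (M : Type u) [PModel M] (bd : M → M), CodAPI M bd → ∀ pw card : M → M, PrimAPI M pw card →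
    CardAPI M card → ∀ (A : ℕ → Set M), Nice A →
    ∀ (f : M × M → Prop) (l : M), RecP A f → NoClique f card l →
    ∀ (Φ : (M × M) × M → Prop), RecP A Φ → Local Φ → DefnAPI M bd f Φ A →
    ∀ S m : M, IsMaxOf S m → Good bd f Φ S m →
      ∃ u, m < u ∧ ∀ S', (∀ x, el x S' ↔ el x S ∨ x = u) → Good bd f Φ S' u

/-- CORE: solutions preserving `Nice`. -/
def ST_CORE : Prop :=
  ∀ (M : Type u) [PModel M] [Countable M] (bd : M → M), CodAPI M bd →
    ∀ pw card : M → M, PrimAPI M pw card → CardAPI M card →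
    ∀ (A : ℕ → Set M), Nice A → (∃ m₀, ∀ m, m₀ ≤ m → A m = ∅) →
    ∀ (f : M × M → Prop) (l : M), RecP A f → NoClique f card l → ∀ j, A j = ∅ →
      ∃ H : Set M, (∀ x, ∃ y ∈ H, x < y) ∧ (∀ x ∈ H, ∀ y ∈ H, x < y → ¬ f (x, y)) ∧
        Nice (Function.update A j H)

/-- What the construction of the model of `BRT` gives. -/
structure BRTModel (M : Type u) [PModel M] (card : M → M) (𝒮 : Set (Set M)) : Prop where
  /-- finitely many sets of `𝒮` are recursive in oracles with `Nice` all of whose recursive sets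
  are in `𝒮` -/
  join : ∀ V : ℕ → Set M, (∀ i, V i ∈ 𝒮) → ∀ N : ℕ, ∃ A : ℕ → Set M, Nice A ∧
    (∀ i, i < N → RecP A (fun x => x ∈ V i)) ∧ ∀ X : Set M, RecP A (fun x => x ∈ X) → X ∈ 𝒮
  brt : ∀ F ∈ 𝒮, ∀ l : M, NoClique (fun z : M × M => pair z.1 z.2 ∈ F) card l →
    ∃ H ∈ 𝒮, (∀ x, ∃ y ∈ H, x < y) ∧ (∀ x ∈ H, ∀ y ∈ H, x < y → pair x y ∉ F)

/-- ITER: the iteration. -/
def ST_ITER : Prop :=
  ∀ (M : Type u) [PModel M] [Countable M] (bd : M → M), CodAPI M bd →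
    ∀ pw card : M → M, PrimAPI M pw card → CardAPI M card →
    ∀ (A : ℕ → Set M), Nice A → (∃ m₀, ∀ m, m₀ ≤ m → A m = ∅) →
      ∃ 𝒮 : Set (Set M), (∀ i, A i ∈ 𝒮) ∧ BRTModel M card 𝒮

/-! ## The connection with the final statement -/

open BRTStmt

/-- PMOD: the structures of the final statement are `PModel`s (same operations). -/
def ST_PMOD : Prop :=
  ∀ (M : Type u) (i0 : Zero M) (i1 : One M) (ia : Add M) (im : Mul M) (il : LT M),
    PMinus M → ∃ I : PModel M, (I.toCommSemiring.toZero = i0) ∧ (I.toCommSemiring.toOne = i1) ∧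
      (I.toCommSemiring.toAdd = ia) ∧ (I.toCommSemiring.toMul = im) ∧ (I.toLinearOrder.toLT = il)

/-- MOD: `BRTModel`s are models of `RCA₀ + BRT`. -/
def ST_MOD : Prop :=
  ∀ (M : Type u) [PModel M], (∃ bd : M → M, CodAPI M bd) → ∀ pw card : M → M, PrimAPI M pw card →
    CardAPI M card → ∀ 𝒮 : Set (Set M), 𝒮.Nonempty → BRTModel M card 𝒮 →
      IsRCA0 M 𝒮 ∧ BRT M 𝒮

/-- SND: models of `RCA₀ + BΣ⁰₂` give `Nice` oracles. -/
def ST_SND : Prop :=
  ∀ (M : Type u) [PModel M] (𝒮 : Set (Set M)), IsRCA0 M 𝒮 → BSigma02 M 𝒮 →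
    ∀ A : ℕ → Set M, (∀ i, A i ∈ 𝒮) → Nice A

/-- LS: the downward Löwenheim–Skolem theorem for arithmetical formulas with set parameters, keeping
`Nice`. -/
def ST_LS : Prop :=
  ∀ (M : Type u) [PModel M] (A : ℕ → Set M), Nice A → ∀ (φ : Form), IsArith φ →
    ∀ (𝒮 : Set (Set M)) (v : ℕ → M), ¬ φ.eval 𝒮 A v →
    ∃ (M' : Type u) (_ : PModel M') (_ : Countable M') (A' : ℕ → Set M') (v' : ℕ → M'), Nice A' ∧
      (∀ i, A i = ∅ → A' i = ∅) ∧ ∀ 𝒮' : Set (Set M'), ¬ φ.eval 𝒮' A' v'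

/-- SUPP: the truth of a formula only depends on finitely many set variables. -/
def ST_SUPP : Prop :=
  ∀ φ : Form, ∃ N : ℕ, ∀ (M : Type u) [Zero M] [One M] [Add M] [Mul M] [LT M] (𝒮 : Set (Set M))
    (V V' : ℕ → Set M) (v : ℕ → M), (∀ i, i < N → V i = V' i) → (φ.eval 𝒮 V v ↔ φ.eval 𝒮 V' v)

/-- HIRST: `BRT` implies `BΣ⁰₂`. -/
def ST_HIRST : Prop :=
  ∀ (M : Type u) [Zero M] [One M] [Add M] [Mul M] [LT M] (𝒮 : Set (Set M)),
    IsRCA0 M 𝒮 → BRT M 𝒮 → BSigma02 M 𝒮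

/-- FIN: the final statement from the modules. -/
def ST_FIN : Prop :=
  ST_COD.{u} → ST_PRIM.{u} → ST_CARD.{u} → ST_ITER.{u} → ST_PMOD.{u} → ST_MOD.{u} → ST_SND.{u} →
    ST_LS.{u} → ST_SUPP.{u} → ST_HIRST.{u} → FINAL.{u}

end Pool.Agent.Helper70.BRT
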