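import Pool.Agent.Helper70.BRT.Spec

/-! # Modules OR and OS: the use of an oracle, evaluation with a finite oracle -/

namespace Pool.Agent.Helper70.BRT

universe u

variable {M : Type u} [PModel M] {A : ℕ → Set M}

theorem Tm.eval_mono (t : Tm M) {v w : ℕ → M} (h : ∀ i, v i ≤ w i) : t.eval v ≤ t.eval w := by
  induction t with
  | var i => exact h i
  | const c => exact le_rfl
  | add s t hs ht => exact add_le_add hs ht
  | mul s t hs ht => exact mul_le_mul' hs ht

/-- A term bounding the use of the oracle number `j`. -/
def Fm.use (j : ℕ) : Fm M → Tm M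
  | .eq _ _ => .const 0
  | .lt _ _ => .const 0
  | .mem i t => if i = j then .add t (.const 1) else .const 0
  | .neg φ => φ.use j
  | .and φ ψ => .add (φ.use j) (ψ.use j)
  | .ball t φ => (φ.use j).subst (fun i => match i with
    | 0 => t
    | i + 1 => .var i)

theorem Fm.use_spec (j : ℕ) (φ : Fm M) : ∀ (G G' : Set M) (v : ℕ → M),
    (∀ x, x < (φ.use j).eval v → (x ∈ G ↔ x ∈ G')) →
      (φ.eval (Function.update A j G) v ↔ φ.eval (Function.update A j G') v) := by
  induction φ with
  | eq s t => intro G G' v _; rfl
  | lt s t => intro G G' v _; rfl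
  | mem i t =>
    intro G G' v h
    by_cases hi : i = j
    · subst hi
      simp only [Fm.eval, Function.update_self]
      apply h
      simp only [Fm.use, if_true, Tm.eval]
      exact lt_add_one' _
    · simp only [Fm.eval, Function.update_of_ne hi]
  | neg φ ih =>
    intro G G' v h
    simp only [Fm.eval]
    exact not_congr (ih G G' v h)
  | and φ ψ ih1 ih2 =>
    intro G G' v h
    simp only [Fm.eval]
    refine and_congr (ih1 G G' v fun x hx => h x ?_) (ih2 G G' v fun x hx => h x ?_)
    · exact lt_of_lt_of_le hx (by simp only [Fm.use, Tm.eval]; exact le_self_add)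
    · exact lt_of_lt_of_le hx (by simp only [Fm.use, Tm.eval]; exact le_add_self)
  | ball t φ ih =>
    intro G G' v h
    simp only [Fm.eval]
    refine forall_congr' fun x => forall_congr' fun hx => ih G G' _ fun y hy => h y ?_
    refine lt_of_lt_of_le hy ?_
    simp only [Fm.use]
    rw [Tm.eval_subst]
    refine Tm.eval_mono _ fun i => ?_
    match i with
    | 0 => exact hx.le
    | i + 1 => exact le_rfl

theorem st_OR : ST_OR.{u} := by
  intro M _ φ j
  exact ⟨φ.use j, fun A G G' v h => Fm.use_spec j φ G G' v h⟩

theorem Tm.rec_eval {Γ : Type u} [Ctx M Γ] (t : Tm M) (V : ℕ → Γ → M) (hV : ∀ i, Rec A (V i)) :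
    Rec A (fun g => t.eval (fun i => V i g)) := by
  induction t with
  | var i => exact hV i
  | const c => exact Rec.const c
  | add s t hs ht => exact hs.add ht
  | mul s t hs ht => exact hs.mul ht

theorem st_OS : ST_OS.{u} := by
  intro M _ bd hbd A hA φ j
  have hel : RecP A (fun z : M × M => el z.1 z.2) := hbd.el_rec.of_pure A
  induction φ with
  | eq s t =>
    intro Γ _ V s' hV hs
    exact RecP.eq (s.rec_eval V hV) (t.rec_eval V hV)
  | lt s t =>
    intro Γ _ V s' hV hs
    exact RecP.lt (s.rec_eval V hV) (t.rec_eval V hV)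
  | mem i t =>
    intro Γ _ V s hV hs
    by_cases hi : i = j
    · subst hi
      simp only [Fm.eval, Function.update_self]
      exact hel.comp ((t.rec_eval V hV).prodMk hs)
    · simp only [Fm.eval, Function.update_of_ne hi]
      exact RecP.mem i (t.rec_eval V hV)
  | neg φ ih =>
    intro Γ _ V s hV hs
    exact (ih Γ V s hV hs).not
  | and φ ψ ih1 ih2 =>
    intro Γ _ V s hV hs
    exact (ih1 Γ V s hV hs).and (ih2 Γ V s hV hs)
  | ball t φ ih =>
    intro Γ _ V s hV hs
    refine RecP.ball (R := fun g x => φ.eval (Function.update A j {x | el x (s g)})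
      (cons x (fun i => V i g))) hA.coll (t.rec_eval V hV) ?_
    have := ih (Γ × M) (fun i g => cons g.2 (fun i => V i g.1) i) (fun g => s g.1) ?_
      (hs.comp PMap.id.fst.rec)
    · exact this
    · intro i
      match i with
      | 0 => exact PMap.id.snd.rec
      | i + 1 => exact (hV i).comp PMap.id.fst.rec

/-- `OS` for the environment of a context. -/
theorem OS_env {bd : M → M} (hbd : CodAPI M bd) (hA : Base A) (φ : Fm M) (j : ℕ) {Γ : Type u}
    [Ctx M Γ] {s : Γ → M} (hs : Rec A s) :
    RecP A (fun g => φ.eval (Function.update A j {x | el x (s g)}) (env g)) := by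
  refine st_OS M bd hbd A hA φ j Γ (fun i g => env g i) s (fun i => ?_) hs
  by_cases hi : i < Ctx.n M Γ
  · simp only [env, hi, if_true]
    exact (poly_pr i hi).rec
  · simp only [env, hi, if_false]
    exact Rec.const 0

end Pool.Agent.Helper70.BRT
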